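import Pool.Agent.H28.LF.F1

/-!
# lfu WBL: labels on one window
-/

set_option autoImplicit false

open Finset

namespace Pool.Agent.H14.LF

open Pool.Agent.H28.LF

/-- the logarithmic sum over an arithmetic progression -/
theorem lg (a H : ℕ) (ha : 0 < a) (hH : 0 < H) : ∀ J : ℕ,
    ∑ j ∈ range (J + 1), (1 : ℝ) / ((a + j * H : ℕ) : ℝ) ≤
      1 + Real.log (((a + J * H : ℕ) : ℝ) / a) / H
  | 0 => by
    have h1 : (1 : ℝ) ≤ a := by exact_mod_cast ha
    have h0 : (a : ℝ) ≠ 0 := by positivity
    rw [Finset.sum_range_one]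
    simp only [Nat.zero_mul, div_self h0, Real.log_one, zero_div, add_zero]
    rw [div_le_one (by positivity)]
    exact h1
  | J + 1 => by
    have ih := lg a H ha hH J
    rw [Finset.sum_range_succ]
    have ha' : (0 : ℝ) < a := by exact_mod_cast ha
    have hH' : (0 : ℝ) < H := by exact_mod_cast hH
    have hm : (0 : ℝ) < ((a + J * H : ℕ) : ℝ) := by positivity
    have hm' : (0 : ℝ) < ((a + (J + 1) * H : ℕ) : ℝ) := by positivity
    have e : ((a + (J + 1) * H : ℕ) : ℝ) = ((a + J * H : ℕ) : ℝ) + H := by push_cast; ring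
    have h1 : (H : ℝ) / ((a + (J + 1) * H : ℕ) : ℝ) ≤
        Real.log (((a + (J + 1) * H : ℕ) : ℝ) / ((a + J * H : ℕ) : ℝ)) := by
      have h2 := Real.add_one_le_exp (-(H : ℝ) / ((a + (J + 1) * H : ℕ) : ℝ))
      have h3 : -(H : ℝ) / ((a + (J + 1) * H : ℕ) : ℝ) + 1 =
          ((a + J * H : ℕ) : ℝ) / ((a + (J + 1) * H : ℕ) : ℝ) := by
        rw [eq_div_iff hm'.ne', add_mul, div_mul_cancel₀ _ hm'.ne', e]
        ring
      rw [h3] at h2
      have h4 := Real.log_le_log (div_pos hm hm') h2
      rw [Real.log_exp] at h4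
      have h5 : Real.log (((a + (J + 1) * H : ℕ) : ℝ) / ((a + J * H : ℕ) : ℝ)) =
          -Real.log (((a + J * H : ℕ) : ℝ) / ((a + (J + 1) * H : ℕ) : ℝ)) := by
        rw [← Real.log_inv, inv_div]
      rw [h5]
      have h6 : -(H : ℝ) / ((a + (J + 1) * H : ℕ) : ℝ) =
        -((H : ℝ) / ((a + (J + 1) * H : ℕ) : ℝ)) := neg_div _ _
      rw [h6] at h4
      linarith
    have h7 : Real.log (((a + (J + 1) * H : ℕ) : ℝ) / a) =
        Real.log (((a + (J + 1) * H : ℕ) : ℝ) / ((a + J * H : ℕ) : ℝ)) +
        Real.log (((a + J * H : ℕ) : ℝ) / a) := by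
      rw [← Real.log_mul (by positivity) (by positivity)]
      congr 1
      field_simp
    rw [h7, add_div]
    have h8 : (1 : ℝ) / ((a + (J + 1) * H : ℕ) : ℝ) =
        (H : ℝ) / ((a + (J + 1) * H : ℕ) : ℝ) / H := by
      field_simp
    have h9 := div_le_div_of_nonneg_right h1 hH'.le
    rw [← h8] at h9
    linarith

theorem lg' (a H x y : ℕ) (hx : 0 < x) (hxy : x ≤ y) (ha : x ≤ a) (hH : 0 < H) (J : ℕ)
    (hJ : ∀ j < J, a + j * H ≤ y) :
    ∑ j ∈ range J, (1 : ℝ) / ((a + j * H : ℕ) : ℝ) ≤ 1 + Real.log ((y : ℝ) / x) / H := by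
  have hx' : (0 : ℝ) < x := by exact_mod_cast hx
  have hxy' : (x : ℝ) ≤ y := by exact_mod_cast hxy
  have hax : (x : ℝ) ≤ a := by exact_mod_cast ha
  have hlog : 0 ≤ Real.log ((y : ℝ) / x) := Real.log_nonneg (by rwa [le_div_iff₀ hx', one_mul])
  rcases J with _ | J
  · simp only [Finset.range_zero, Finset.sum_empty]
    positivity
  · refine (lg a H (hx.trans_le ha) hH J).trans ?_
    have h1 : ((a + J * H : ℕ) : ℝ) ≤ y := by exact_mod_cast hJ J (Nat.lt_succ_self J)
    have h2 : Real.log (((a + J * H : ℕ) : ℝ) / a) ≤ Real.log ((y : ℝ) / x) := by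
      have ha0 : (0 : ℝ) < a := by linarith
      refine Real.log_le_log (div_pos ?_ ha0) ?_
      · push_cast; positivity
      · exact div_le_div₀ (by linarith) h1 hx' hax
    have := div_le_div_of_nonneg_right h2 (show (0 : ℝ) ≤ H by positivity)
    linarith

/-- the sum over blocks -/
theorem sum_blocks (W : ℕ → ℝ) (s H : ℕ) : ∀ J : ℕ,
    ∑ j ∈ range J, ∑ h ∈ range H, W (s + j * H + h) = ∑ i ∈ range (J * H), W (s + i)
  | 0 => by simp
  | J + 1 => by
    rw [Finset.sum_range_succ, sum_blocks W s H J, Nat.succ_mul, Finset.sum_range_add]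
    congr 1
    refine Finset.sum_congr rfl fun h _ => ?_
    rw [Nat.add_assoc]

open Classical in
theorem pf_WBL (hS : T_SBX) (hB : T_BLI) : T_WBL := by
  intro u hu H x y hH hx hxy
  have hH' : (0 : ℝ) < H := by exact_mod_cast hH
  have hH1 : (1 : ℝ) ≤ H := by exact_mod_cast hH
  have hSB := hS u hu.1 H
  have hf0 : ∀ n, 0 ≤ SB u H n / n := fun n => div_nonneg (hSB n).2.1 (Nat.cast_nonneg n)
  choose b hb using fun n => (hSB n).2.2.2
  -- the best offset
  obtain ⟨q, hq, hqs⟩ : ∃ q ∈ range H, (∑ n ∈ Icc x y, SB u H n / n) / H ≤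
      ∑ n ∈ (Icc x y).filter (fun n => (n - x) % H = q), SB u H n / n := by
    refine Finset.exists_le_of_sum_le (Finset.nonempty_range_iff.2 hH.ne') ?_
    rw [Finset.sum_const, Finset.card_range, nsmul_eq_mul, mul_div_cancel₀ _ hH'.ne']
    rw [Finset.sum_fiberwise_of_maps_to (fun n _ => Finset.mem_range.2 (Nat.mod_lt _ hH))]
  have hqH := Finset.mem_range.1 hq
  obtain ⟨s, hs⟩ : ∃ s, s = x + q := ⟨_, rfl⟩
  have hsx : x ≤ s := by omega
  have hs0 : 0 < s := by omega
  obtain ⟨J, hJ⟩ : ∃ J, J = (y + H - s) / H := ⟨_, rfl⟩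
  have hJy : ∀ j < J, s + j * H ≤ y := by
    intro j hj
    have h1 : (j + 1) * H ≤ y + H - s := (Nat.le_div_iff_mul_le hH).1 (hJ ▸ hj)
    rw [Nat.succ_mul] at h1
    omega
  have hfib : ∑ n ∈ (Icc x y).filter (fun n => (n - x) % H = q), SB u H n / n ≤
      ∑ j ∈ range J, SB u H (s + j * H) / ((s + j * H : ℕ) : ℝ) := by
    have hinj : Set.InjOn (fun j => s + j * H) (range J : Set ℕ) := by
      intro i _ j _ h
      have h1 : i * H = j * H := by
        have : s + i * H = s + j * H := h
        omega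
      exact Nat.eq_of_mul_eq_mul_right hH h1
    rw [← Finset.sum_image (f := fun n : ℕ => SB u H n / (n : ℝ)) hinj]
    refine Finset.sum_le_sum_of_subset_of_nonneg ?_ fun n _ _ => hf0 n
    intro n hn
    rw [Finset.mem_filter, Finset.mem_Icc] at hn
    obtain ⟨⟨hn1, hn2⟩, hn3⟩ := hn
    rw [Finset.mem_image]
    have h2 := Nat.mod_add_div (n - x) H
    refine ⟨(n - x) / H, ?_, ?_⟩
    · rw [Finset.mem_range, hJ]
      refine (Nat.le_div_iff_mul_le hH).2 ?_
      rw [Nat.succ_mul, Nat.mul_comm]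
      omega
    · show s + (n - x) / H * H = n
      rw [Nat.mul_comm]
      omega
  obtain ⟨τ, hτ⟩ : ∃ τ : ℕ → ℕ → Bool, τ = fun n => b (s + (n - s) / H * H) := ⟨_, rfl⟩
  refine ⟨τ, ?_, ?_⟩
  · -- changes
    have hsub : (Icc x y).filter (fun n => τ n ≠ τ (n + 1)) ⊆
        (range ((y + 1 - s) / H)).image (fun j => s + H - 1 + j * H) := by
      intro n hn
      rw [Finset.mem_filter, Finset.mem_Icc] at hn
      obtain ⟨⟨hn1, hn2⟩, hn3⟩ := hn
      have hne : (n - s) / H ≠ (n + 1 - s) / H := fun h => hn3 (by rw [hτ]; simp only [h])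
      have hns : s ≤ n := by
        by_contra h
        apply hne
        have e1 : n - s = 0 := by omega
        have e2 : n + 1 - s = 0 := by omega
        rw [e1, e2]
      obtain ⟨m, rfl⟩ := Nat.exists_eq_add_of_le hns
      have e1 : s + m - s = m := by omega
      have e2 : s + m + 1 - s = m + 1 := by omega
      rw [e1, e2, Nat.succ_div] at hne
      have hdvd : H ∣ m + 1 := by
        by_contra h
        apply hne
        rw [if_neg h, Nat.add_zero]
      obtain ⟨c, hc⟩ := hdvd
      have hc0 : 0 < c := by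
        rcases Nat.eq_zero_or_pos c with rfl | h
        · simp at hc
        · exact h
      rw [Finset.mem_image]
      refine ⟨c - 1, ?_, ?_⟩
      · rw [Finset.mem_range]
        have : c ≤ (y + 1 - s) / H := by
          refine (Nat.le_div_iff_mul_le hH).2 ?_
          rw [Nat.mul_comm, ← hc]
          omega
        omega
      · show s + H - 1 + (c - 1) * H = s + m
        obtain ⟨d, rfl⟩ := Nat.exists_eq_add_of_lt hc0
        have : (0 + d + 1 - 1) * H = d * H := by congr 1; omega
        rw [this]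
        have h3 : H * (0 + d + 1) = d * H + H := by ring
        omega
    refine (Finset.sum_le_sum_of_subset_of_nonneg hsub fun n _ _ => by positivity).trans ?_
    have hinj : Set.InjOn (fun j => s + H - 1 + j * H) (range ((y + 1 - s) / H) : Set ℕ) := by
      intro i _ j _ h
      have h1 : i * H = j * H := by
        have : s + H - 1 + i * H = s + H - 1 + j * H := h
        omega
      exact Nat.eq_of_mul_eq_mul_right hH h1
    rw [Finset.sum_image hinj]
    refine lg' (s + H - 1) H x y hx hxy (by omega) hH _ fun j hj => ?_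
    have h1 : (j + 1) * H ≤ y + 1 - s := (Nat.le_div_iff_mul_le hH).1 hj
    rw [Nat.succ_mul] at h1
    omega
  · intro K hK
    have hW0 : ∀ n : ℕ, 0 ≤ ‖mw u K (thv (τ n)) n‖ / n := fun n => by positivity
    have hlog := lg' s H x y hx hxy hsx hH J hJy
    -- one block
    have hblock : ∀ j : ℕ, (H : ℝ) / 2 * (SB u H (s + j * H) / ((s + j * H : ℕ) + H : ℝ)) ≤
        ∑ h ∈ range H, ‖mw u K (thv (τ (s + j * H + h))) (s + j * H + h)‖ /
          ((s + j * H + h : ℕ) : ℝ) + 2 * K * (1 / ((s + j * H : ℕ) : ℝ)) := by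
      intro j
      have hn0 : (0 : ℝ) < ((s + j * H : ℕ) : ℝ) := by
        have : 0 < s + j * H := by omega
        exact_mod_cast this
      have h1 := hb (s + j * H)
      have h2 := hB u hu.1 K H (thv (b (s + j * H))) (s + j * H) hK
      have hτj : ∀ h ∈ range H, τ (s + j * H + h) = b (s + j * H) := by
        intro h hh
        rw [hτ]
        show b (s + (s + j * H + h - s) / H * H) = _
        have e1 : s + j * H + h - s = h + H * j := by rw [Nat.mul_comm H j]; omega
        rw [e1, Nat.add_mul_div_left _ _ hH, Nat.div_eq_of_lt (Finset.mem_range.1 hh),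
          Nat.zero_add]
      have h3 : ∑ h ∈ range H, ‖mw u K (thv (b (s + j * H))) (s + j * H + h)‖ =
          ∑ h ∈ range H, ‖mw u K (thv (τ (s + j * H + h))) (s + j * H + h)‖ :=
        Finset.sum_congr rfl fun h hh => by rw [hτj h hh]
      have hpos : (0 : ℝ) < ((s + j * H : ℕ) : ℝ) + H := by positivity
      have h4 : (∑ h ∈ range H, ‖mw u K (thv (τ (s + j * H + h))) (s + j * H + h)‖) /
          (((s + j * H : ℕ) : ℝ) + H) ≤
          ∑ h ∈ range H, ‖mw u K (thv (τ (s + j * H + h))) (s + j * H + h)‖ /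
          ((s + j * H + h : ℕ) : ℝ) := by
        rw [Finset.sum_div]
        refine Finset.sum_le_sum fun h hh => ?_
        refine div_le_div_of_nonneg_left (norm_nonneg _) ?_ ?_
        · have : 0 < s + j * H + h := by omega
          exact_mod_cast this
        · have : (h : ℝ) ≤ H := by exact_mod_cast (Finset.mem_range.1 hh).le
          push_cast
          linarith
      have h5 : (2 * K : ℝ) / (((s + j * H : ℕ) : ℝ) + H) ≤
          2 * K * (1 / ((s + j * H : ℕ) : ℝ)) := by
        rw [mul_one_div]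
        refine div_le_div_of_nonneg_left (by positivity) hn0 ?_
        linarith
      have h6 : (H : ℝ) / 2 * (SB u H (s + j * H) / (((s + j * H : ℕ) : ℝ) + H)) =
          (H * (SB u H (s + j * H) / 2)) / (((s + j * H : ℕ) : ℝ) + H) := by ring
      rw [h6]
      have h7 : (H : ℝ) * (SB u H (s + j * H) / 2) ≤
          ∑ h ∈ range H, ‖mw u K (thv (τ (s + j * H + h))) (s + j * H + h)‖ + 2 * K := by
        rw [← h3]
        exact (mul_le_mul_of_nonneg_left h1 hH'.le).trans h2
      refine (div_le_div_of_nonneg_right h7 hpos.le).trans ?_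
      rw [add_div]
      exact add_le_add h4 h5
    -- the last block
    have hlast : ∀ j : ℕ, (H : ℝ) / 2 * (SB u H (s + j * H) / ((s + j * H : ℕ) + H : ℝ)) ≤
        1 / 2 := by
      intro j
      have hpos : (0 : ℝ) < ((s + j * H : ℕ) : ℝ) + H := by positivity
      have h1 : (H : ℝ) / 2 * (SB u H (s + j * H) / (((s + j * H : ℕ) : ℝ) + H)) ≤
          (H : ℝ) / 2 * (1 / H) := by
        refine mul_le_mul_of_nonneg_left ?_ (by positivity)
        refine div_le_div₀ zero_le_one (hSB _).2.2.1 hH' ?_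
        have : (0 : ℝ) ≤ ((s + j * H : ℕ) : ℝ) := Nat.cast_nonneg _
        linarith
      refine h1.trans (le_of_eq ?_)
      field_simp
    -- telescoping
    have htel : ∀ N : ℕ, ∑ j ∈ range N, (H : ℝ) / 2 *
        (SB u H (s + j * H) / ((s + j * H : ℕ) : ℝ)) ≤
        ∑ j ∈ range N, (H : ℝ) / 2 * (SB u H (s + j * H) / ((s + j * H : ℕ) + H : ℝ)) +
          (H : ℝ) / 2 * (1 / (s : ℝ) - 1 / ((s + N * H : ℕ) : ℝ)) := by
      intro N
      induction N with
      | zero => simp
      | succ N ih =>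
        rw [Finset.sum_range_succ, Finset.sum_range_succ]
        have hn0 : (0 : ℝ) < ((s + N * H : ℕ) : ℝ) := by
          have : 0 < s + N * H := by omega
          exact_mod_cast this
        have e1 : ((s + (N + 1) * H : ℕ) : ℝ) = ((s + N * H : ℕ) : ℝ) + H := by push_cast; ring
        have h1 : SB u H (s + N * H) / ((s + N * H : ℕ) : ℝ) -
            SB u H (s + N * H) / (((s + N * H : ℕ) : ℝ) + H) ≤
            1 / ((s + N * H : ℕ) : ℝ) - 1 / (((s + N * H : ℕ) : ℝ) + H) := by
          have h2 : 0 ≤ 1 / ((s + N * H : ℕ) : ℝ) - 1 / (((s + N * H : ℕ) : ℝ) + H) := by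
            rw [sub_nonneg]
            exact div_le_div_of_nonneg_left zero_le_one hn0 (by linarith)
          have h3 : SB u H (s + N * H) / ((s + N * H : ℕ) : ℝ) -
            SB u H (s + N * H) / (((s + N * H : ℕ) : ℝ) + H) = SB u H (s + N * H) *
            (1 / ((s + N * H : ℕ) : ℝ) - 1 / (((s + N * H : ℕ) : ℝ) + H)) := by ring
          rw [h3]
          exact mul_le_of_le_one_left h2 (hSB _).2.2.1
        have h4 := mul_le_mul_of_nonneg_left h1 (show (0 : ℝ) ≤ H / 2 by positivity)
        rw [e1]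
        linarith
    have hmain : (∑ n ∈ Icc x y, SB u H n / n) / 2 ≤
        ∑ j ∈ range J, (H : ℝ) / 2 * (SB u H (s + j * H) / ((s + j * H : ℕ) : ℝ)) := by
      rw [← Finset.mul_sum]
      have h1 := hqs.trans hfib
      rw [div_le_iff₀ hH'] at h1
      linarith
    have htelJ := htel J
    have hs1 : (1 : ℝ) / s ≤ 1 := by
      rw [div_le_one (by exact_mod_cast hs0)]
      exact_mod_cast hs0
    have hH2 : (H : ℝ) / 2 * (1 / (s : ℝ) - 1 / ((s + J * H : ℕ) : ℝ)) ≤ H / 2 := by
      have h1 : (0 : ℝ) ≤ 1 / ((s + J * H : ℕ) : ℝ) := by positivity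
      nlinarith
    -- the sum of the blocks
    have hsum : ∑ j ∈ range J, (H : ℝ) / 2 *
        (SB u H (s + j * H) / ((s + j * H : ℕ) + H : ℝ)) ≤
        ∑ n ∈ Icc x y, ‖mw u K (thv (τ n)) n‖ / n +
          2 * K * (1 + Real.log ((y : ℝ) / x) / H) + 1 / 2 := by
      rcases J with _ | J
      · simp only [Finset.range_zero, Finset.sum_empty]
        have h1 : 0 ≤ ∑ n ∈ Icc x y, ‖mw u K (thv (τ n)) n‖ / n :=
          Finset.sum_nonneg fun n _ => hW0 n
        have h2 : 0 ≤ 1 + Real.log ((y : ℝ) / x) / H := by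
          refine le_trans ?_ hlog
          simp
        positivity
      · rw [Finset.sum_range_succ]
        refine add_le_add ?_ (hlast J)
        refine (Finset.sum_le_sum fun j _ => hblock j).trans ?_
        rw [Finset.sum_add_distrib, ← Finset.mul_sum]
        refine add_le_add ?_ ?_
        · rw [sum_blocks (fun n => ‖mw u K (thv (τ n)) n‖ / (n : ℝ)) s H J]
          have hinj : Set.InjOn (fun i => s + i) (range (J * H) : Set ℕ) :=
            fun i _ j _ h => Nat.add_left_cancel h
          rw [← Finset.sum_image (f := fun n : ℕ => ‖mw u K (thv (τ n)) n‖ / (n : ℝ)) hinj]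
          refine Finset.sum_le_sum_of_subset_of_nonneg ?_ fun n _ _ => hW0 n
          intro n hn
          rw [Finset.mem_image] at hn
          obtain ⟨i, hi, rfl⟩ := hn
          have h1 := Finset.mem_range.1 hi
          have h2 := hJy J (Nat.lt_succ_self J)
          rw [Finset.mem_Icc]
          omega
        · refine mul_le_mul_of_nonneg_left ?_ (by positivity)
          refine le_trans ?_ hlog
          refine Finset.sum_le_sum_of_subset_of_nonneg ?_ fun j _ _ => by positivity
          exact Finset.range_subset_range.2 (Nat.le_succ J)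
    linarith

end Pool.Agent.H14.LF
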