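import Pool.Agent.H14.LF.BLI
import Pool.Agent.H14.LF.WBL

/-!
# lfu LBL: the labels
-/

set_option autoImplicit false

open Finset Filter

namespace Pool.Agent.H14.LF

open Pool.Agent.H28.LF
open Pool.Agent.H28.MCL (ldB Aw)

theorem norm_mw_le {u : Bool × Bool → ℂ} (hu : ∀ b, ‖u b‖ = 1) (K : ℕ) (θ : ℝ) (n : ℕ) :
    ‖mw u K θ n‖ ≤ 1 := by
  unfold mw
  rw [norm_div, Complex.norm_natCast]
  refine div_le_one_of_le₀ ?_ (Nat.cast_nonneg K)
  refine (norm_sum_le _ _).trans ?_
  refine (Finset.sum_le_sum (g := fun _ => (1 : ℝ)) fun k _ => ?_).trans ?_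
  · rw [norm_mul, norm_em, norm_Fk hu, one_mul]
  · simp

/-- the logarithmic sum over a window -/
theorem sum_window {x y : ℕ} (hx : 0 < x) (hxy : x ≤ y) :
    ∑ n ∈ Icc x y, (1 : ℝ) / n ≤ 1 + Real.log ((y : ℝ) / x) := by
  have h := lg x 1 hx one_pos (y - x)
  have e : x + (y - x) * 1 = y := by omega
  rw [e, Nat.cast_one, div_one] at h
  refine le_trans (le_of_eq ?_) h
  have e2 : Icc x y = (range (y - x + 1)).image (fun j => x + j * 1) := by
    ext n
    rw [Finset.mem_Icc, Finset.mem_image]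
    constructor
    · rintro ⟨h1, h2⟩
      exact ⟨n - x, Finset.mem_range.2 (by omega), by omega⟩
    · rintro ⟨j, hj, rfl⟩
      have := Finset.mem_range.1 hj
      omega
  rw [e2, Finset.sum_image fun i _ j _ h => by
    have h' : x + i * 1 = x + j * 1 := h
    omega]

open Classical in
theorem pf_LBL (hW : T_WIN) (hB : T_WBL) (hL : Pool.Agent.H28.MCL.T_LDB) : T_LBL := by
  intro u hu hU
  obtain ⟨ε, H, x, y, hε, hH, hxy, hlen, hbig⟩ := hW u hu hU
  choose τ₀ hτ1 hτ2 using fun j => hB u hu (H j) (x j) (y j) (by have := hH j; omega)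
    (hxy j).1 (hxy j).2.1
  have hmono : StrictMono x := strictMono_nat_of_lt_succ fun j =>
    (hxy j).2.1.trans_lt (hxy j).2.2
  have hdis : ∀ i j n : ℕ, x i ≤ n → n ≤ y i → x j ≤ n → n ≤ y j → i = j := by
    have key : ∀ i j n : ℕ, i < j → n ≤ y i → x j ≤ n → False := by
      intro i j n hij h1 h2
      have h3 := (hxy i).2.2
      have h4 := hmono.monotone (show i + 1 ≤ j from hij)
      omega
    intro i j n h1 h2 h3 h4
    rcases lt_trichotomy i j with h | h | h
    · exact (key i j n h h2 h3).elim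
    · exact h
    · exact (key j i n h h4 h1).elim
  obtain ⟨τ, hτ⟩ : ∃ τ : ℕ → ℕ → Bool, ∀ j n, x j ≤ n → n ≤ y j → τ n = τ₀ j n := by
    refine ⟨fun n => if h : ∃ j, x j ≤ n ∧ n ≤ y j then τ₀ h.choose n else fun _ => false, ?_⟩
    intro j n h1 h2
    have h : ∃ j, x j ≤ n ∧ n ≤ y j := ⟨j, h1, h2⟩
    simp only [dif_pos h]
    rw [hdis _ _ n h.choose_spec.1 h.choose_spec.2 h1 h2]
  obtain ⟨L, hLdef⟩ : ∃ L : ℕ → ℝ, L = fun j => Real.log ((y j : ℝ) / x j) := ⟨_, rfl⟩
  have hLj : ∀ j, Real.log ((y j : ℝ) / x j) = L j := fun j => by rw [hLdef]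
  simp only [hLj] at hτ1 hτ2 hlen hbig
  have hHj : ∀ j : ℕ, (j : ℝ) + 1 ≤ H j := fun j => by exact_mod_cast hH j
  have hLH : ∀ j : ℕ, (j : ℝ) * ((j : ℝ) + 1) ≤ L j := fun j =>
    (mul_le_mul_of_nonneg_left (hHj j) (Nat.cast_nonneg j)).trans (hlen j)
  have hL0 : ∀ j, 0 ≤ L j := fun j => le_trans (by positivity) (hLH j)
  have hUat : ((hyperfilter ℕ : Ultrafilter ℕ) : Filter ℕ) ≤ atTop := by
    rw [← Nat.cofinite_eq_atTop]
    exact hyperfilter_le_cofinite
  have hAw : Aw (hyperfilter ℕ) x y := by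
    refine ⟨fun j => (hxy j).1, ?_⟩
    refine Tendsto.mono_left ?_ hUat
    simp only [hLj]
    refine tendsto_atTop_mono (f := fun j : ℕ => (j : ℝ)) (fun j => ?_)
      tendsto_natCast_atTop_atTop
    refine le_trans ?_ (hLH j)
    have : (0 : ℝ) ≤ j := Nat.cast_nonneg j
    nlinarith
  obtain ⟨_, _, _, hup, hlo⟩ := hL (hyperfilter ℕ) x y hAw
  refine ⟨ε / 8, hyperfilter ℕ, x, y, τ, by positivity, hAw, ?_, ?_⟩
  · obtain ⟨A, hA⟩ : ∃ A : Set ℕ, A = {n | τ n ≠ τ (n + 1)} := ⟨_, rfl⟩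
    rw [← hA]
    refine le_antisymm ?_ ?_
    · refine le_of_forall_pos_le_add fun c hc => ?_
      rw [zero_add]
      refine hup _ c (hUat ?_)
      refine eventually_atTop.2 ⟨⌈3 / c⌉₊ + 1, fun j hj => ?_⟩
      rw [hLj]
      have hj1 : 3 / c ≤ j := by
        refine (Nat.le_ceil _).trans ?_
        exact_mod_cast (by omega : ⌈3 / c⌉₊ ≤ j)
      have hj0 : (1 : ℝ) ≤ j := by exact_mod_cast (by omega : 1 ≤ j)
      have h1 : ∑ n ∈ (Icc (x j) (y j)).filter (fun n => n ∈ A),
          (1 : ℝ) / n ≤ (1 + L j / H j) + 1 := by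
        have h2 : (Icc (x j) (y j)).filter (fun n => n ∈ A) ⊆
            (Icc (x j) (y j)).filter (fun n => τ₀ j n ≠ τ₀ j (n + 1)) ∪ {y j} := by
          intro n hn
          rw [Finset.mem_filter, Finset.mem_Icc, hA] at hn
          obtain ⟨⟨hn1, hn2⟩, hn3⟩ := hn
          rw [Finset.mem_union, Finset.mem_filter, Finset.mem_Icc, Finset.mem_singleton]
          by_cases h : n = y j
          · exact Or.inr h
          · refine Or.inl ⟨⟨hn1, hn2⟩, ?_⟩
            rw [← hτ j n hn1 hn2, ← hτ j (n + 1) (by omega) (by omega)]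
            exact hn3
        refine (Finset.sum_le_sum_of_subset_of_nonneg h2 fun n _ _ => by positivity).trans ?_
        have hun : ∀ s t : Finset ℕ, ∑ n ∈ s ∪ t, (1 : ℝ) / n ≤
            ∑ n ∈ s, (1 : ℝ) / n + ∑ n ∈ t, (1 : ℝ) / n := by
          intro s t
          have e := Finset.sum_union_inter (s₁ := s) (s₂ := t) (f := fun n : ℕ => (1 : ℝ) / n)
          have e2 : 0 ≤ ∑ n ∈ s ∩ t, (1 : ℝ) / n := Finset.sum_nonneg fun n _ => by positivity
          linarith
        refine (hun _ _).trans ?_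
        rw [Finset.sum_singleton]
        refine add_le_add (hτ1 j) ?_
        have h3 : (1 : ℝ) ≤ y j := by
          have := (hxy j).1
          have := (hxy j).2.1
          exact_mod_cast (by omega : 1 ≤ y j)
        rw [div_le_one (by linarith)]
        exact h3
      refine h1.trans ?_
      have h4 : L j / H j ≤ L j / j := div_le_div_of_nonneg_left (hL0 j) (by linarith)
        (by have := hHj j; linarith)
      have h5 : 2 ≤ 2 * (L j / j) := by
        have : 1 ≤ L j / j := by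
          rw [le_div_iff₀ (by linarith), one_mul]
          have := hLH j
          nlinarith
        linarith
      have h6 : 3 * (L j / j) ≤ c * L j := by
        have h7 : 3 ≤ c * j := by
          rw [div_le_iff₀ hc] at hj1
          linarith
        have h8 : 3 * (L j / j) = (3 * L j) / j := by ring
        rw [h8, div_le_iff₀ (by linarith)]
        have := hL0 j
        nlinarith
      linarith
    · refine hlo _ 0 (Eventually.of_forall fun j => ?_)
      rw [zero_mul]
      exact Finset.sum_nonneg fun n _ => by positivity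
  · intro K hK
    have hK' : (0 : ℝ) < K := by exact_mod_cast hK
    refine hlo _ _ (hUat ?_)
    refine eventually_atTop.2 ⟨⌈4 * (1 + 4 * K + ε / 8) / ε⌉₊ + 1, fun j hj => ?_⟩
    rw [hLj]
    have hj1 : 4 * (1 + 4 * K + ε / 8) / ε ≤ j := by
      refine (Nat.le_ceil _).trans ?_
      exact_mod_cast (by omega : ⌈4 * (1 + 4 * (K : ℝ) + ε / 8) / ε⌉₊ ≤ j)
    have hj0 : (1 : ℝ) ≤ j := by exact_mod_cast (by omega : 1 ≤ j)
    have hlow := hτ2 j K hK
    have hb := hbig j
    have hsame : ∑ n ∈ Icc (x j) (y j), ‖mw u K (thv (τ₀ j n)) n‖ / n =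
        ∑ n ∈ Icc (x j) (y j), ‖mw u K (thv (τ n)) n‖ / n :=
      Finset.sum_congr rfl fun n hn => by
        rw [Finset.mem_Icc] at hn
        rw [hτ j n hn.1 hn.2]
    rw [hsame] at hlow
    have hsplit : ∑ n ∈ Icc (x j) (y j), ‖mw u K (thv (τ n)) n‖ / n ≤
        ∑ n ∈ (Icc (x j) (y j)).filter (fun n => n ∈ {n | ε / 8 ≤ ‖mw u K (thv (τ n)) n‖}),
          (1 : ℝ) / n + ε / 8 * ∑ n ∈ Icc (x j) (y j), (1 : ℝ) / n := by
      rw [Finset.sum_filter, Finset.mul_sum, ← Finset.sum_add_distrib]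
      refine Finset.sum_le_sum fun n _ => ?_
      have hn0 : (0 : ℝ) ≤ 1 / n := by positivity
      have e : ‖mw u K (thv (τ n)) n‖ / n = ‖mw u K (thv (τ n)) n‖ * (1 / n) := by ring
      rw [e]
      by_cases h : n ∈ {n : ℕ | ε / 8 ≤ ‖mw u K (thv (τ n)) n‖}
      · rw [if_pos h]
        have h1 := mul_le_mul_of_nonneg_right (norm_mw_le hu.1 K (thv (τ n)) n) hn0
        have h2 : 0 ≤ ε / 8 * (1 / (n : ℝ)) := by positivity
        linarith
      · rw [if_neg h, zero_add]
        have h1 : ‖mw u K (thv (τ n)) n‖ < ε / 8 := not_le.1 h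
        exact mul_le_mul_of_nonneg_right h1.le hn0
    have hwin := sum_window (hxy j).1 (hxy j).2.1
    rw [hLj] at hwin
    have hwin' := mul_le_mul_of_nonneg_left hwin (show 0 ≤ ε / 8 by positivity)
    -- the error terms
    have hLj0 := hL0 j
    obtain ⟨z, hz⟩ : ∃ z, z = L j / j := ⟨_, rfl⟩
    have hjp : (0 : ℝ) < j := by linarith
    have hz1 : 1 ≤ z := by
      rw [hz, le_div_iff₀ hjp, one_mul]
      have := hLH j
      nlinarith
    have hHz : (H j : ℝ) ≤ z := by
      rw [hz, le_div_iff₀ hjp]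
      have := hlen j
      linarith
    have hLz : L j / H j ≤ z := by
      rw [hz]
      exact div_le_div_of_nonneg_left hLj0 hjp (by have := hHj j; linarith)
    have hzL : (1 + 4 * K + ε / 8) * z ≤ ε / 4 * L j := by
      have h7 : 4 * (1 + 4 * K + ε / 8) ≤ ε * j := by
        rw [div_le_iff₀ hε] at hj1
        linarith
      have h8 : (1 + 4 * K + ε / 8) * z = ((1 + 4 * K + ε / 8) * L j) / j := by rw [hz]; ring
      rw [h8, div_le_iff₀ hjp]
      nlinarith
    have e1 : 2 * (K : ℝ) * (1 + L j / H j) ≤ 4 * K * z := by nlinarith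
    have e2 : ε / 8 ≤ ε / 8 * z := by nlinarith
    have e3 : ε / 2 * L j ≤ (∑ n ∈ Icc (x j) (y j), SB u (H j) n / n) / 2 := by linarith
    nlinarith

end Pool.Agent.H14.LF
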