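import Pool.Agent.H28.LF.F1

/-!
# lfu BLI: a long mean is controlled by short means
-/

set_option autoImplicit false

open Finset

namespace Pool.Agent.H14.LF

open Pool.Agent.H28.LF

theorem em_add (s t : ℝ) : em (s + t) = em s * em t := by
  unfold H28.LF.em
  rw [← Complex.exp_add]
  congr 1
  push_cast
  ring

theorem norm_em (t : ℝ) : ‖em t‖ = 1 := by
  unfold H28.LF.em
  have h : -(2 * (Real.pi : ℂ) * Complex.I * (t : ℂ)) = ((-(2 * Real.pi * t) : ℝ) : ℂ) *
      Complex.I := by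
    push_cast
    ring
  rw [h, Complex.norm_exp_ofReal_mul_I]

theorem norm_Fk {u : Bool × Bool → ℂ} (hu : ∀ b, ‖u b‖ = 1) (k n : ℕ) : ‖Fk u k n‖ = 1 := by
  unfold Fk
  rw [norm_prod]
  exact Finset.prod_eq_one fun i _ => hu _

theorem Fk_add (u : Bool × Bool → ℂ) (h k n : ℕ) : Fk u h n * Fk u k (n + h) = Fk u (h + k) n := by
  unfold Fk
  rw [Finset.prod_range_add]
  congr 1
  refine Finset.prod_congr rfl fun i _ => ?_
  rw [Nat.add_assoc n h i]

/-- sums over shifted windows -/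
theorem shift_sum (g : ℕ → ℂ) (hg : ∀ i, ‖g i‖ = 1) (H : ℕ) : ∀ k : ℕ,
    ‖∑ h ∈ range H, g (h + k + 1) - ∑ h ∈ range H, g (h + 1)‖ ≤ 2 * k
  | 0 => by simp
  | k + 1 => by
    have ih := shift_sum g hg H k
    have e : ∑ h ∈ range H, g (h + (k + 1) + 1) - ∑ h ∈ range H, g (h + k + 1) =
        g (H + k + 1) - g (0 + k + 1) := by
      have h1 := Finset.sum_range_succ (fun h => g (h + k + 1)) H
      have h2 := Finset.sum_range_succ' (fun h => g (h + k + 1)) H
      have h3 : ∑ h ∈ range H, g (h + (k + 1) + 1) = ∑ h ∈ range H, g (h + 1 + k + 1) :=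
        Finset.sum_congr rfl fun h _ => by congr 1; omega
      rw [h3]
      linear_combination h1 - h2
    have h4 : ‖g (H + k + 1) - g (0 + k + 1)‖ ≤ 2 := by
      refine (norm_sub_le _ _).trans ?_
      rw [hg, hg]
      norm_num
    have h5 : ∑ h ∈ range H, g (h + (k + 1) + 1) - ∑ h ∈ range H, g (h + 1) =
        (g (H + k + 1) - g (0 + k + 1)) +
          (∑ h ∈ range H, g (h + k + 1) - ∑ h ∈ range H, g (h + 1)) := by
      rw [← e]; ring
    rw [h5]
    refine (norm_add_le _ _).trans ?_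
    push_cast
    linarith

theorem pf_BLI : T_BLI := by
  intro u hu K H θ n hK
  have hK' : (0 : ℝ) < K := by exact_mod_cast hK
  set g : ℕ → ℂ := fun k => em (k * θ) * Fk u k n with hg
  have hg1 : ∀ k, ‖g k‖ = 1 := fun k => by
    rw [hg]
    show ‖em (k * θ) * Fk u k n‖ = 1
    rw [norm_mul, norm_em, norm_Fk hu, one_mul]
  have hmul : ∀ h k : ℕ, g h * (em (((k : ℕ) + 1 : ℝ) * θ) * Fk u (k + 1) (n + h)) =
      g (h + k + 1) := by
    intro h k
    show em (h * θ) * Fk u h n * (em (((k : ℕ) + 1 : ℝ) * θ) * Fk u (k + 1) (n + h)) =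
      em (((h + k + 1 : ℕ) : ℝ) * θ) * Fk u (h + k + 1) n
    have e1 : ((h + k + 1 : ℕ) : ℝ) * θ = h * θ + ((k : ℝ) + 1) * θ := by push_cast; ring
    rw [e1, em_add, Nat.add_assoc h k 1, ← Fk_add u h (k + 1) n]
    ring
  -- the short means
  have hs : ∀ h : ℕ, (K : ℝ) * ‖mw u K θ (n + h)‖ = ‖∑ k ∈ range K, g (h + k + 1)‖ := by
    intro h
    have e1 : ∑ k ∈ range K, g (h + k + 1) = g h * (K * mw u K θ (n + h)) := by
      have hKc : (K : ℂ) ≠ 0 := by exact_mod_cast hK.ne'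
      have e2 : (K : ℂ) * mw u K θ (n + h) =
          ∑ k ∈ range K, H28.LF.em ((k + 1) * θ) * Fk u (k + 1) (n + h) := by
        unfold mw
        rw [mul_div_cancel₀ _ hKc]
      rw [e2, Finset.mul_sum]
      exact Finset.sum_congr rfl fun k _ => (hmul h k).symm
    rw [e1, norm_mul, hg1, one_mul, norm_mul, Complex.norm_natCast]
  -- the long mean
  have hl : (H : ℝ) * ‖mw u H θ n‖ = ‖∑ j ∈ range H, g (j + 1)‖ := by
    rcases Nat.eq_zero_or_pos H with rfl | hH
    · simp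
    · have hHc : (H : ℂ) ≠ 0 := by exact_mod_cast hH.ne'
      have e2 : (H : ℂ) * mw u H θ n = ∑ j ∈ range H, g (j + 1) := by
        unfold mw
        rw [mul_div_cancel₀ _ hHc]
        refine Finset.sum_congr rfl fun k _ => ?_
        show _ = em (((k + 1 : ℕ) : ℝ) * θ) * Fk u (k + 1) n
        push_cast
        rfl
      rw [← e2, norm_mul, Complex.norm_natCast]
  have hswap : ∑ h ∈ range H, ∑ k ∈ range K, g (h + k + 1) - K * ∑ j ∈ range H, g (j + 1) =
      ∑ k ∈ range K, (∑ h ∈ range H, g (h + k + 1) - ∑ h ∈ range H, g (h + 1)) := by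
    rw [Finset.sum_comm, Finset.sum_sub_distrib]
    simp
  have hd : ‖∑ h ∈ range H, ∑ k ∈ range K, g (h + k + 1) - K * ∑ j ∈ range H, g (j + 1)‖ ≤
      K * (2 * K) := by
    rw [hswap]
    refine (norm_sum_le _ _).trans ?_
    have h1 : ∀ k ∈ range K, ‖∑ h ∈ range H, g (h + k + 1) - ∑ h ∈ range H, g (h + 1)‖ ≤
        2 * (K : ℝ) := by
      intro k hk
      refine (shift_sum g hg1 H k).trans ?_
      have : (k : ℝ) ≤ K := by exact_mod_cast (Finset.mem_range.1 hk).le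
      linarith
    refine (Finset.sum_le_sum h1).trans ?_
    simp
  have hkey : (K : ℝ) * ‖∑ j ∈ range H, g (j + 1)‖ ≤
      ∑ h ∈ range H, (K : ℝ) * ‖mw u K θ (n + h)‖ + K * (2 * K) := by
    have h1 : (K : ℝ) * ‖∑ j ∈ range H, g (j + 1)‖ = ‖(K : ℂ) * ∑ j ∈ range H, g (j + 1)‖ := by
      rw [norm_mul, Complex.norm_natCast]
    have h2 : ‖(K : ℂ) * ∑ j ∈ range H, g (j + 1)‖ ≤
        ‖∑ h ∈ range H, ∑ k ∈ range K, g (h + k + 1)‖ +
        ‖∑ h ∈ range H, ∑ k ∈ range K, g (h + k + 1) - K * ∑ j ∈ range H, g (j + 1)‖ := by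
      have := norm_sub_le (∑ h ∈ range H, ∑ k ∈ range K, g (h + k + 1))
        (∑ h ∈ range H, ∑ k ∈ range K, g (h + k + 1) - K * ∑ j ∈ range H, g (j + 1))
      rwa [sub_sub_cancel] at this
    have h3 : ‖∑ h ∈ range H, ∑ k ∈ range K, g (h + k + 1)‖ ≤
        ∑ h ∈ range H, (K : ℝ) * ‖mw u K θ (n + h)‖ := by
      refine (norm_sum_le _ _).trans ?_
      exact Finset.sum_le_sum fun h _ => (hs h).ge
    rw [h1]
    linarith
  rw [hl]
  rw [← Finset.mul_sum] at hkey
  have h6 : (K : ℝ) * ‖∑ j ∈ range H, g (j + 1)‖ ≤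
      K * (∑ h ∈ range H, ‖mw u K θ (n + h)‖ + 2 * K) := by linarith
  exact le_of_mul_le_mul_left h6 hK'

end Pool.Agent.H14.LF
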