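import Pool.Agent.H28.LF.F3
import Pool.Agent.H14.LF.BLI

/-!
Project LF, module CRB: products of intervals, short windows inside long ones.
-/

set_option autoImplicit false

open Finset

namespace Pool.Agent.H14.LF

open Pool.Agent.H28.LF

/-- the correlation of two shifts -/
noncomputable def Sh (u : Bool × Bool → ℂ) (K n h h' : ℕ) : ℂ :=
  ∑ i ∈ range K, Fk u (i + 1) (n + h) * (starRingEnd ℂ) (Fk u (i + 1) (n + h'))

theorem norm_Sh_le {u : Bool × Bool → ℂ} (hu : ∀ b, ‖u b‖ = 1) (K n h h' : ℕ) :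
    ‖Sh u K n h h'‖ ≤ K := by
  unfold Sh
  refine (norm_sum_le _ _).trans ?_
  refine (Finset.sum_le_sum (g := fun _ => (1 : ℝ)) fun i _ => ?_).trans (by simp)
  rw [norm_mul, RCLike.norm_conj, norm_Fk hu, norm_Fk hu, mul_one]

theorem sum_sq (u : Bool × Bool → ℂ) (hu : ∀ b, ‖u b‖ = 1) (K₁ K n j : ℕ) (w : ℕ → ℂ)
    (hj : 0 < j) (hw : ∀ h, ‖w h‖ ≤ 1) :
    ∑ k : Fin j → Fin K, ‖∑ h ∈ Icc 1 K₁, w h * ∏ i, Fk u ((k i : ℕ) + 1) (n + h)‖ ^ 2 ≤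
      (K : ℝ) ^ (j - 1) * ∑ h ∈ Icc 1 K₁, ∑ h' ∈ Icc 1 K₁, ‖Sh u K n h h'‖ := by
  have e : ((∑ k : Fin j → Fin K,
      ‖∑ h ∈ Icc 1 K₁, w h * ∏ i, Fk u ((k i : ℕ) + 1) (n + h)‖ ^ 2 : ℝ) : ℂ) =
      ∑ h ∈ Icc 1 K₁, ∑ h' ∈ Icc 1 K₁, w h * (starRingEnd ℂ) (w h') * (Sh u K n h h') ^ j := by
    push_cast
    have e1 : ∀ k : Fin j → Fin K,
        ((‖∑ h ∈ Icc 1 K₁, w h * ∏ i, Fk u ((k i : ℕ) + 1) (n + h)‖ : ℝ) : ℂ) ^ 2 =
        ∑ h ∈ Icc 1 K₁, ∑ h' ∈ Icc 1 K₁, w h * (starRingEnd ℂ) (w h') *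
          ∏ i, (Fk u ((k i : ℕ) + 1) (n + h) *
            (starRingEnd ℂ) (Fk u ((k i : ℕ) + 1) (n + h'))) := by
      intro k
      rw [← Complex.mul_conj', map_sum, Finset.sum_mul_sum]
      refine Finset.sum_congr rfl fun h _ => Finset.sum_congr rfl fun h' _ => ?_
      rw [map_mul, map_prod, Finset.prod_mul_distrib]
      ring
    rw [Finset.sum_congr rfl fun k _ => e1 k, Finset.sum_comm]
    refine Finset.sum_congr rfl fun h _ => ?_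
    rw [Finset.sum_comm]
    refine Finset.sum_congr rfl fun h' _ => ?_
    rw [← Finset.mul_sum]
    congr 1
    unfold Sh
    rw [← Fin.sum_univ_eq_sum_range
      (fun i => Fk u (i + 1) (n + h) * (starRingEnd ℂ) (Fk u (i + 1) (n + h'))) K,
      Fintype.sum_pow]
  have e2 : (0 : ℝ) ≤ ∑ k : Fin j → Fin K,
      ‖∑ h ∈ Icc 1 K₁, w h * ∏ i, Fk u ((k i : ℕ) + 1) (n + h)‖ ^ 2 :=
    Finset.sum_nonneg fun _ _ => by positivity
  have e3 := congrArg norm e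
  rw [Complex.norm_real, Real.norm_of_nonneg e2] at e3
  rw [e3, Finset.mul_sum]
  refine (norm_sum_le _ _).trans (Finset.sum_le_sum fun h _ => ?_)
  rw [Finset.mul_sum]
  refine (norm_sum_le _ _).trans (Finset.sum_le_sum fun h' _ => ?_)
  rw [norm_mul, norm_mul, RCLike.norm_conj, norm_pow]
  have e4 : ‖Sh u K n h h'‖ ^ j = ‖Sh u K n h h'‖ ^ (j - 1) * ‖Sh u K n h h'‖ := by
    rw [← pow_succ]; congr 1; omega
  rw [e4]
  have e5 : ‖w h‖ * ‖w h'‖ ≤ 1 := mul_le_one₀ (hw h) (norm_nonneg _) (hw h')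
  have e6 : ‖Sh u K n h h'‖ ^ (j - 1) ≤ (K : ℝ) ^ (j - 1) :=
    pow_le_pow_left₀ (norm_nonneg _) (norm_Sh_le hu K n h h') _
  calc ‖w h‖ * ‖w h'‖ * (‖Sh u K n h h'‖ ^ (j - 1) * ‖Sh u K n h h'‖)
      ≤ 1 * (‖Sh u K n h h'‖ ^ (j - 1) * ‖Sh u K n h h'‖) :=
        mul_le_mul_of_nonneg_right e5 (by positivity)
    _ ≤ (K : ℝ) ^ (j - 1) * ‖Sh u K n h h'‖ := by
        rw [one_mul]
        exact mul_le_mul_of_nonneg_right e6 (norm_nonneg _)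

theorem blocks (G : ℕ → ℂ) (K₁ : ℕ) : ∀ B : ℕ,
    ‖∑ i ∈ range (B * K₁), G i‖ ≤ ∑ b ∈ range B, ‖∑ i ∈ range K₁, G (b * K₁ + i)‖
  | 0 => by simp
  | B + 1 => by
    rw [Nat.succ_mul, Finset.sum_range_add, Finset.sum_range_succ]
    exact (norm_add_le _ _).trans (add_le_add (blocks G K₁ B) le_rfl)

theorem blocks' (G : ℕ → ℂ) (hG : ∀ i, ‖G i‖ ≤ 1) (K₁ K : ℕ) (hK : 0 < K₁) :
    ‖∑ i ∈ range K, G i‖ ≤
      ∑ b ∈ range (K / K₁), ‖∑ i ∈ range K₁, G (b * K₁ + i)‖ + K₁ := by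
  have e : K = K / K₁ * K₁ + K % K₁ := by
    rw [mul_comm]
    exact (Nat.div_add_mod K K₁).symm
  conv_lhs => rw [e]
  rw [Finset.sum_range_add]
  refine (norm_add_le _ _).trans (add_le_add (blocks G K₁ _) ?_)
  refine (norm_sum_le _ _).trans ?_
  refine (Finset.sum_le_sum (g := fun _ => (1 : ℝ)) fun i _ => hG _).trans ?_
  simp only [Finset.sum_const, Finset.card_range, nsmul_eq_mul, mul_one]
  exact_mod_cast (Nat.mod_lt K hK).le

theorem range_Icc (F : ℕ → ℂ) (K : ℕ) : ∑ i ∈ range K, F (i + 1) = ∑ i ∈ Icc 1 K, F i := by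
  rw [Finset.range_eq_Ico, Finset.sum_Ico_add' F 0 K 1]
  refine Finset.sum_congr ?_ fun i _ => rfl
  ext i
  simp only [mem_Ico, mem_Icc]
  omega

theorem norm_Sh (u : Bool × Bool → ℂ) (hu : ∀ b, ‖u b‖ = 1) (K₁ K n h h' : ℕ) (hK : 0 < K₁) :
    ‖Sh u K n h h'‖ ≤ ∑ b ∈ range (K / K₁), ‖∑ i ∈ Icc 1 K₁, Fk u (h + i) (n + b * K₁) *
      (starRingEnd ℂ) (Fk u (h' + i) (n + b * K₁))‖ + K₁ := by
  have hc : ∀ a m : ℕ, (starRingEnd ℂ) (Fk u a m) * Fk u a m = 1 := by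
    intro a m
    rw [Complex.conj_mul', norm_Fk hu]
    simp
  have e0 : ∀ a k m : ℕ, Fk u k (m + a) = (starRingEnd ℂ) (Fk u a m) * Fk u (a + k) m := by
    intro a k m
    rw [← Fk_add, ← mul_assoc, hc, one_mul]
  have e1 : Sh u K n h h' = ((starRingEnd ℂ) (Fk u h n) * Fk u h' n) *
      ∑ i ∈ range K, Fk u (h + (i + 1)) n * (starRingEnd ℂ) (Fk u (h' + (i + 1)) n) := by
    unfold Sh
    rw [Finset.mul_sum]
    refine Finset.sum_congr rfl fun i _ => ?_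
    rw [e0 h (i + 1) n, e0 h' (i + 1) n, map_mul, Complex.conj_conj]
    ring
  rw [e1, norm_mul, norm_mul, RCLike.norm_conj, norm_Fk hu, norm_Fk hu, one_mul, one_mul]
  refine (blocks' (fun i => Fk u (h + (i + 1)) n * (starRingEnd ℂ) (Fk u (h' + (i + 1)) n))
    (fun i => ?_) K₁ K hK).trans (add_le_add (Finset.sum_le_sum fun b _ => ?_) le_rfl)
  · rw [norm_mul, RCLike.norm_conj, norm_Fk hu, norm_Fk hu, one_mul]
  · have e2 : ∑ i ∈ range K₁, Fk u (h + (b * K₁ + i + 1)) n *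
        (starRingEnd ℂ) (Fk u (h' + (b * K₁ + i + 1)) n) =
        ∑ i ∈ Icc 1 K₁, Fk u (h + i) (n + b * K₁) *
          (starRingEnd ℂ) (Fk u (h' + i) (n + b * K₁)) := by
      have e6 := range_Icc (fun i => Fk u (h + (b * K₁ + i)) n *
        (starRingEnd ℂ) (Fk u (h' + (b * K₁ + i)) n)) K₁
      simp only [← add_assoc] at e6 ⊢
      rw [e6]
      refine Finset.sum_congr rfl fun i _ => ?_
      rw [e0 (b * K₁) (h + i) n, e0 (b * K₁) (h' + i) n, map_mul, Complex.conj_conj]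
      have e3 : Fk u (b * K₁) n * (starRingEnd ℂ) (Fk u (b * K₁) n) = 1 := by
        rw [mul_comm]; exact hc _ _
      have e4 : h + b * K₁ + i = b * K₁ + (h + i) := by ring
      have e5 : h' + b * K₁ + i = b * K₁ + (h' + i) := by ring
      rw [e4, e5]
      linear_combination (-(Fk u (b * K₁ + (h + i)) n) *
        (starRingEnd ℂ) (Fk u (b * K₁ + (h' + i)) n)) * e3
    exact le_of_eq (congrArg norm e2)

theorem block_le (h1 : T_CR1) (u : Bool × Bool → ℂ) (hu : ∀ b, ‖u b‖ = 1) (K₁ m h : ℕ)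
    (hK : 0 < K₁) :
    ∑ h' ∈ Icc 1 K₁, ‖∑ i ∈ Icc 1 K₁, Fk u (h + i) m * (starRingEnd ℂ) (Fk u (h' + i) m)‖ ≤
      (K₁ : ℝ) ^ 2 * (2 * SB u (2 * K₁) m) := by
  have hc : ∀ a m : ℕ, (starRingEnd ℂ) (Fk u a m) * Fk u a m = 1 := by
    intro a m
    rw [Complex.conj_mul', norm_Fk hu]
    simp
  have e0 : ∀ a k m : ℕ, Fk u k (m + a) = (starRingEnd ℂ) (Fk u a m) * Fk u (a + k) m := by
    intro a k m
    rw [← Fk_add, ← mul_assoc, hc, one_mul]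
  have hK' : (0 : ℝ) < K₁ := by exact_mod_cast hK
  have h2 := h1 u hu K₁ m (fun i => (starRingEnd ℂ) (Fk u (h + i) m) * Fk u i m) hK
    (fun i => by rw [norm_mul, RCLike.norm_conj, norm_Fk hu, norm_Fk hu, one_mul])
  have h3 : ∑ h' ∈ Icc 1 K₁, ‖∑ i ∈ Icc 1 K₁, Fk u (h + i) m *
      (starRingEnd ℂ) (Fk u (h' + i) m)‖ = (K₁ : ℝ) ^ 2 * ((∑ k ∈ Icc 1 K₁,
      ‖(∑ i ∈ Icc 1 K₁, (starRingEnd ℂ) (Fk u (h + i) m) * Fk u i m * Fk u k (m + i)) / K₁‖) /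
      K₁) := by
    have h4 : ∀ k ∈ Icc 1 K₁,
        ‖(∑ i ∈ Icc 1 K₁, (starRingEnd ℂ) (Fk u (h + i) m) * Fk u i m * Fk u k (m + i)) / K₁‖ =
        ‖∑ i ∈ Icc 1 K₁, Fk u (h + i) m * (starRingEnd ℂ) (Fk u (k + i) m)‖ / K₁ := by
      intro k _
      rw [norm_div, Complex.norm_natCast]
      congr 1
      rw [← RCLike.norm_conj, map_sum]
      congr 1
      refine Finset.sum_congr rfl fun i _ => ?_
      rw [e0 i k m, map_mul, map_mul, map_mul, Complex.conj_conj, Complex.conj_conj,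
        add_comm i k]
      linear_combination (Fk u (h + i) m * (starRingEnd ℂ) (Fk u (k + i) m)) * hc i m
    rw [Finset.sum_congr rfl h4, ← Finset.sum_div]
    field_simp
  rw [h3]
  exact mul_le_mul_of_nonneg_left h2 (by positivity)

theorem pf_CRB (h1 : T_CR1) : T_CRB := by
  intro u hu K₁ K n j w hK₁ hK hj hw
  have hK₁' : (0 : ℝ) < K₁ := by exact_mod_cast hK₁
  have hK0 : (0 : ℝ) < K := by exact_mod_cast lt_of_lt_of_le hK₁ hK
  set A : (Fin j → Fin K) → ℝ := fun k =>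
    ‖∑ h ∈ Icc 1 K₁, w h * ∏ i, Fk u ((k i : ℕ) + 1) (n + h)‖ with hA
  have e1 : ∑ k : Fin j → Fin K,
      ‖(∑ h ∈ Icc 1 K₁, w h * ∏ i, Fk u ((k i : ℕ) + 1) (n + h)) / K₁‖ = (∑ k, A k) / K₁ := by
    rw [Finset.sum_div]
    refine Finset.sum_congr rfl fun k _ => ?_
    rw [norm_div, Complex.norm_natCast]
  rw [e1]
  have e2 : (∑ k, A k) ^ 2 ≤ (K : ℝ) ^ j * ∑ k, A k ^ 2 := by
    have := sq_sum_le_card_mul_sum_sq (s := (univ : Finset (Fin j → Fin K))) (f := A)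
    simpa [Fintype.card_fun] using this
  have e3 := sum_sq u hu K₁ K n j w hj hw
  have e4 : ∑ h ∈ Icc 1 K₁, ∑ h' ∈ Icc 1 K₁, ‖Sh u K n h h'‖ ≤
      (K₁ : ℝ) ^ 3 * (∑ b ∈ range (K / K₁), 2 * SB u (2 * K₁) (n + b * K₁)) + (K₁ : ℝ) ^ 3 := by
    have e5 : ∀ h ∈ Icc 1 K₁, ∑ h' ∈ Icc 1 K₁, ‖Sh u K n h h'‖ ≤
        (K₁ : ℝ) ^ 2 * (∑ b ∈ range (K / K₁), 2 * SB u (2 * K₁) (n + b * K₁)) +
          (K₁ : ℝ) ^ 2 := by
      intro h _
      refine (Finset.sum_le_sum fun h' _ => norm_Sh u hu K₁ K n h h' hK₁).trans ?_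
      rw [Finset.sum_add_distrib, Finset.sum_comm, Finset.mul_sum]
      refine add_le_add (Finset.sum_le_sum fun b _ => block_le h1 u hu K₁ _ h hK₁) ?_
      simp only [Finset.sum_const, Nat.card_Icc, nsmul_eq_mul]
      rw [show K₁ + 1 - 1 = K₁ by omega, sq]
    refine (Finset.sum_le_sum e5).trans (le_of_eq ?_)
    rw [Finset.sum_const, Nat.card_Icc, nsmul_eq_mul, show K₁ + 1 - 1 = K₁ by omega]
    ring
  have e6 : (K : ℝ) ^ j = (K : ℝ) ^ (j - 1) * K := by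
    rw [← pow_succ]; congr 1; omega
  have hKj : (0 : ℝ) < (K : ℝ) ^ (j - 1) := by positivity
  rw [div_pow, div_pow]
  set S := ∑ b ∈ range (K / K₁), 2 * SB u (2 * K₁) (n + b * K₁) with hS
  have e7 : (∑ k, A k) ^ 2 ≤ (K : ℝ) ^ j * ((K : ℝ) ^ (j - 1) *
      ((K₁ : ℝ) ^ 3 * S + (K₁ : ℝ) ^ 3)) :=
    e2.trans (mul_le_mul_of_nonneg_left (e3.trans (mul_le_mul_of_nonneg_left e4 hKj.le))
      (by positivity))
  rw [div_div, div_le_iff₀ (by positivity)]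
  refine e7.trans (le_of_eq ?_)
  rw [e6]
  field_simp

end Pool.Agent.H14.LF
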