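import Pool.Agent.H28.LF.F3
import Pool.Agent.H14.LF.LBL

/-!
Project LF, module CRF: families of disjoint intervals.
-/

set_option autoImplicit false

open Finset

namespace Pool.Agent.H14.LF

open Pool.Agent.H28.LF

/-- the tail of the sum of the inverse squares -/
theorem sum_inv_sq (M y : ℕ) (hM : 0 < M) : ∑ N ∈ Icc M y, (1 : ℝ) / (N : ℝ) ^ 2 ≤ 2 / M := by
  have h := sum_Ioo_inv_sq_le (α := ℝ) (M - 1) (y + 1)
  have e : Ioo (M - 1) (y + 1) = Icc M y := by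
    ext n
    simp only [mem_Ioo, mem_Icc]
    omega
  rw [e] at h
  have e2 : ((M - 1 : ℕ) : ℝ) + 1 = M := by
    have : (M - 1) + 1 = M := by omega
    exact_mod_cast this
  rw [e2] at h
  simpa using h

/-- exchange of the summations -/
theorem sum_shift (f : ℕ → ℝ) (h0 : ∀ n, 0 ≤ f n) (h1 : ∀ n, f n ≤ 1) (c x y : ℕ) (hx : 0 < x)
    (hc : c ≤ x) : ∑ N ∈ Icc x y, (∑ m ∈ range N, f (m + c)) / (N : ℝ) ^ 2 ≤
      2 + 4 * ∑ m ∈ Icc x (2 * y), f m / m := by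
  classical
  have hx' : (0 : ℝ) < x := by exact_mod_cast hx
  have e1 : ∀ N ∈ Icc x y, (∑ m ∈ range N, f (m + c)) / (N : ℝ) ^ 2 ≤
      x * (1 / (N : ℝ) ^ 2) +
        ∑ m ∈ Icc x (2 * y), f m * (if m < N + x then 1 / (N : ℝ) ^ 2 else 0) := by
    intro N hN
    rw [mem_Icc] at hN
    have a1 : ∑ m ∈ range N, f (m + c) ≤ ∑ m ∈ range (N + x), f m := by
      calc ∑ m ∈ range N, f (m + c) = ∑ m ∈ (range N).image (fun m => m + c), f m := by
            rw [Finset.sum_image fun i _ j _ h => by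
              have h' : i + c = j + c := h
              omega]
        _ ≤ ∑ m ∈ range (N + x), f m := by
            refine Finset.sum_le_sum_of_subset_of_nonneg ?_ fun _ _ _ => h0 _
            intro m hm
            rw [mem_image] at hm
            obtain ⟨i, hi, rfl⟩ := hm
            rw [mem_range] at hi ⊢
            omega
    have a2 : ∑ m ∈ range (N + x), f m ≤ x + ∑ m ∈ (Icc x (2 * y)).filter (fun m => m < N + x),
        f m := by
      have a3 : range (N + x) = range x ∪ (Icc x (2 * y)).filter (fun m => m < N + x) := by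
        ext m
        simp only [mem_union, mem_range, mem_filter, mem_Icc]
        omega
      rw [a3, Finset.sum_union (by
        rw [Finset.disjoint_left]
        intro m hm hm'
        rw [mem_range] at hm
        rw [mem_filter, mem_Icc] at hm'
        omega)]
      refine add_le_add ?_ le_rfl
      refine (Finset.sum_le_sum (g := fun _ => (1 : ℝ)) fun i _ => h1 _).trans ?_
      simp
    have a4 : (∑ m ∈ range N, f (m + c)) / (N : ℝ) ^ 2 ≤
        (x + ∑ m ∈ (Icc x (2 * y)).filter (fun m => m < N + x), f m) / (N : ℝ) ^ 2 :=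
      div_le_div_of_nonneg_right (a1.trans a2) (by positivity)
    refine a4.trans (le_of_eq ?_)
    rw [add_div, div_eq_mul_one_div, Finset.sum_div, Finset.sum_filter]
    congr 1
    refine Finset.sum_congr rfl fun m _ => ?_
    split_ifs
    · rw [div_eq_mul_one_div]
    · simp
  refine (Finset.sum_le_sum e1).trans ?_
  rw [Finset.sum_add_distrib, ← Finset.mul_sum, Finset.sum_comm,
    Finset.mul_sum (Icc x (2 * y)) (fun m => f m / m) 4]
  refine add_le_add ?_ (Finset.sum_le_sum fun m hm => ?_)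
  · calc (x : ℝ) * ∑ N ∈ Icc x y, 1 / (N : ℝ) ^ 2 ≤ x * (2 / x) :=
          mul_le_mul_of_nonneg_left (sum_inv_sq x y hx) hx'.le
      _ = 2 := by field_simp
  · rw [mem_Icc] at hm
    have hm0 : (0 : ℝ) < m := by exact_mod_cast lt_of_lt_of_le hx hm.1
    rw [← Finset.mul_sum, ← Finset.sum_filter]
    have hM : 0 < (m + 1) / 2 := by omega
    have a5 : ∑ N ∈ (Icc x y).filter (fun N => m < N + x), 1 / (N : ℝ) ^ 2 ≤
        ∑ N ∈ Icc ((m + 1) / 2) y, 1 / (N : ℝ) ^ 2 := by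
      refine Finset.sum_le_sum_of_subset_of_nonneg ?_ fun _ _ _ => by positivity
      intro N hN
      rw [mem_filter, mem_Icc] at hN
      rw [mem_Icc]
      omega
    have a6 := sum_inv_sq ((m + 1) / 2) y hM
    have a7 : (m : ℝ) / 2 ≤ (((m + 1) / 2 : ℕ) : ℝ) := by
      have : m ≤ 2 * ((m + 1) / 2) := by omega
      have h' : (m : ℝ) ≤ 2 * (((m + 1) / 2 : ℕ) : ℝ) := by exact_mod_cast this
      linarith
    have a8 : (2 : ℝ) / (((m + 1) / 2 : ℕ) : ℝ) ≤ 4 / m := by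
      have hM' : (0 : ℝ) < (((m + 1) / 2 : ℕ) : ℝ) := by exact_mod_cast hM
      rw [div_le_div_iff₀ hM' hm0]
      linarith
    calc f m * ∑ N ∈ (Icc x y).filter (fun N => m < N + x), 1 / (N : ℝ) ^ 2
        ≤ f m * (4 / m) := mul_le_mul_of_nonneg_left (a5.trans (a6.trans a8)) (h0 m)
      _ = 4 * (f m / m) := by ring

/-- the sum over an interval is controlled by the short sums -/
theorem interval_le (v : ℕ → ℂ) (hv : ∀ n, ‖v n‖ ≤ 1) (K₁ a b : ℕ) (hK : 0 < K₁) (hab : a ≤ b) :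
    ‖∑ n ∈ Ioc a b, v n‖ ≤ ∑ m ∈ Ico a b,
      ‖(∑ h ∈ Icc 1 K₁, (if m + h ≤ b then v (m + h) else 0)) / K₁‖ + K₁ := by
  have hK' : (0 : ℝ) < K₁ := by exact_mod_cast hK
  set g : ℕ → ℂ := fun n => if n ≤ b then v n else 0 with hg
  have hg1 : ∀ n, ‖g n‖ ≤ 1 := by
    intro n
    rw [hg]
    simp only
    split_ifs
    · exact hv n
    · simp
  have s1 : ∀ c : ℕ, ‖∑ m ∈ Ico a b, g (m + (c + 1)) - ∑ n ∈ Ioc a b, v n‖ ≤ c := by
    intro c
    induction c with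
    | zero =>
      have : ∑ m ∈ Ico a b, g (m + (0 + 1)) = ∑ n ∈ Ioc a b, v n := by
        rw [zero_add, Finset.sum_Ico_add' g a b 1]
        refine Finset.sum_congr ?_ fun n hn => ?_
        · ext n
          simp only [mem_Ico, mem_Ioc]
          omega
        · rw [mem_Ioc] at hn
          rw [hg]
          exact if_pos hn.2
      rw [this]
      simp
    | succ c ih =>
      have e : ∑ m ∈ Ico a b, g (m + (c + 1 + 1)) =
          ∑ m ∈ Ico a b, g (m + (c + 1)) + (g (b + (c + 1)) - g (a + (c + 1))) := by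
        have h1 := Finset.sum_Ico_add' (fun m => g (m + (c + 1))) a b 1
        have h2 := Finset.sum_Ico_succ_top hab (fun m => g (m + (c + 1)))
        have h3 := Finset.sum_eq_sum_Ico_succ_bot (Nat.lt_succ_of_le hab)
          (fun m => g (m + (c + 1)))
        have h4 : ∑ m ∈ Ico a b, g (m + (c + 1 + 1)) = ∑ m ∈ Ico a b, g (m + 1 + (c + 1)) :=
          Finset.sum_congr rfl fun m _ => by congr 1; ring
        rw [h4, h1]
        rw [Nat.succ_eq_add_one, h2] at h3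
        linear_combination -h3
      have e' : g (b + (c + 1)) = 0 := by
        rw [hg]
        exact if_neg (by omega)
      rw [e, e', zero_sub]
      have e2 : ∑ m ∈ Ico a b, g (m + (c + 1)) + -g (a + (c + 1)) - ∑ n ∈ Ioc a b, v n =
          (∑ m ∈ Ico a b, g (m + (c + 1)) - ∑ n ∈ Ioc a b, v n) - g (a + (c + 1)) := by ring
      rw [e2]
      refine (norm_sub_le _ _).trans ?_
      push_cast
      exact add_le_add ih (hg1 _)
  have s2 : (K₁ : ℂ) * ∑ n ∈ Ioc a b, v n = ∑ m ∈ Ico a b, ∑ h ∈ Icc 1 K₁, g (m + h) -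
      ∑ h ∈ Icc 1 K₁, (∑ m ∈ Ico a b, g (m + h) - ∑ n ∈ Ioc a b, v n) := by
    rw [Finset.sum_sub_distrib, Finset.sum_comm, Finset.sum_const, Nat.card_Icc,
      show K₁ + 1 - 1 = K₁ by omega, nsmul_eq_mul]
    ring
  have s3 : ‖∑ h ∈ Icc 1 K₁, (∑ m ∈ Ico a b, g (m + h) - ∑ n ∈ Ioc a b, v n)‖ ≤
      (K₁ : ℝ) * K₁ := by
    refine (norm_sum_le _ _).trans ?_
    refine (Finset.sum_le_sum (g := fun _ => (K₁ : ℝ)) fun h hh => ?_).trans (by simp)
    rw [mem_Icc] at hh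
    obtain ⟨c, rfl⟩ : ∃ c, h = c + 1 := ⟨h - 1, by omega⟩
    refine (s1 c).trans ?_
    exact_mod_cast (show c ≤ K₁ by omega)
  have s4 : (K₁ : ℝ) * ‖∑ n ∈ Ioc a b, v n‖ ≤
      ∑ m ∈ Ico a b, ‖∑ h ∈ Icc 1 K₁, g (m + h)‖ + K₁ * K₁ := by
    have : (K₁ : ℝ) * ‖∑ n ∈ Ioc a b, v n‖ = ‖(K₁ : ℂ) * ∑ n ∈ Ioc a b, v n‖ := by
      rw [norm_mul, Complex.norm_natCast]
    rw [this, s2]
    exact (norm_sub_le _ _).trans (add_le_add (norm_sum_le _ _) s3)
  have s5 : ∑ m ∈ Ico a b, ‖(∑ h ∈ Icc 1 K₁, g (m + h)) / K₁‖ =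
      (∑ m ∈ Ico a b, ‖∑ h ∈ Icc 1 K₁, g (m + h)‖) / K₁ := by
    rw [Finset.sum_div]
    refine Finset.sum_congr rfl fun m _ => ?_
    rw [norm_div, Complex.norm_natCast]
  have s6 : ∑ m ∈ Ico a b, ‖(∑ h ∈ Icc 1 K₁, (if m + h ≤ b then v (m + h) else 0)) / K₁‖ =
      ∑ m ∈ Ico a b, ‖(∑ h ∈ Icc 1 K₁, g (m + h)) / K₁‖ := rfl
  rw [s6, s5]
  have : (∑ m ∈ Ico a b, ‖∑ h ∈ Icc 1 K₁, g (m + h)‖) / K₁ + K₁ =
      (∑ m ∈ Ico a b, ‖∑ h ∈ Icc 1 K₁, g (m + h)‖ + K₁ * K₁) / K₁ := by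
    field_simp
  rw [this, le_div_iff₀ hK']
  linarith [s4]

/-- disjoint long intervals: their number -/
theorem card_le (I : Finset (ℕ × ℕ)) (K₀ N : ℕ) (hI : ∀ J ∈ I, J.1 + K₀ ≤ J.2 ∧ J.2 ≤ N)
    (hd : (I : Set (ℕ × ℕ)).PairwiseDisjoint (fun J => Ioc J.1 J.2)) : #I * K₀ ≤ N := by
  classical
  have h1 : #(I.biUnion fun J => Ioc J.1 J.2) = ∑ J ∈ I, #(Ioc J.1 J.2) :=
    Finset.card_biUnion hd
  have h2 : #I * K₀ ≤ ∑ J ∈ I, #(Ioc J.1 J.2) := by
    rw [← smul_eq_mul]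
    refine Finset.card_nsmul_le_sum _ _ _ fun J hJ => ?_
    rw [Nat.card_Ioc]
    have := hI J hJ
    omega
  have h3 : #(I.biUnion fun J => Ioc J.1 J.2) ≤ #(Ioc 0 N) := by
    refine Finset.card_le_card fun n hn => ?_
    rw [mem_biUnion] at hn
    obtain ⟨J, hJ, hn⟩ := hn
    rw [mem_Ioc] at hn ⊢
    have := hI J hJ
    omega
  rw [Nat.card_Ioc, Nat.sub_zero] at h3
  omega

/-- disjoint intervals: the sum of a nonnegative function -/
theorem sum_disj (I : Finset (ℕ × ℕ)) (N : ℕ) (hI : ∀ J ∈ I, J.2 ≤ N)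
    (hd : (I : Set (ℕ × ℕ)).PairwiseDisjoint (fun J => Ioc J.1 J.2)) (F : ℕ → ℝ)
    (hF : ∀ n, 0 ≤ F n) : ∑ J ∈ I, ∑ m ∈ Ico J.1 J.2, F m ≤ ∑ m ∈ range N, F m := by
  classical
  have hd' : (I : Set (ℕ × ℕ)).PairwiseDisjoint (fun J => Ico J.1 J.2) := by
    intro J hJ J' hJ' hne
    have h := hd hJ hJ' hne
    simp only [Function.onFun] at h ⊢
    rw [Finset.disjoint_left] at h ⊢
    intro m hm hm'
    rw [mem_Ico] at hm hm'
    exact h (a := m + 1) (mem_Ioc.2 ⟨by omega, by omega⟩) (mem_Ioc.2 ⟨by omega, by omega⟩)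
  rw [← Finset.sum_biUnion hd']
  refine Finset.sum_le_sum_of_subset_of_nonneg ?_ fun _ _ _ => hF _
  intro n hn
  rw [mem_biUnion] at hn
  obtain ⟨J, hJ, hn⟩ := hn
  rw [mem_Ico] at hn
  rw [mem_range]
  have := hI J hJ
  omega

/-- the bound for one `N` -/
theorem one_N (hB : T_CRB) (u : Bool × Bool → ℂ) (hu : ∀ b, ‖u b‖ = 1) (K₁ K K₀ N j : ℕ) (δ : ℝ)
    (w : ℕ → ℂ) (I : Finset (ℕ × ℕ)) (hK₁ : 0 < K₁) (hK : K₁ ≤ K) (hK₀ : 0 < K₀) (hj : 0 < j)
    (hδ : 0 < δ) (hSB : ∀ n, 0 ≤ SB u (2 * K₁) n)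
    (hw : ∀ n, ‖w n‖ ≤ 1) (hI : ∀ J ∈ I, J.1 + K₀ ≤ J.2 ∧ J.2 ≤ N)
    (hd : (I : Set (ℕ × ℕ)).PairwiseDisjoint (fun J => Ioc J.1 J.2)) :
    ∑ k : Fin j → Fin K, ∑ J ∈ I, ‖∑ n ∈ Ioc J.1 J.2, w n * ∏ i, Fk u ((k i : ℕ) + 1) n‖ ≤
      (K : ℝ) ^ j * (∑ m ∈ range N, (δ + ((K₁ : ℝ) / K * ∑ b ∈ range (K / K₁),
        2 * SB u (2 * K₁) (m + b * K₁) + (K₁ : ℝ) / K) / (4 * δ)) + (K₁ : ℝ) / K₀ * N) := by
  have hK₁' : (0 : ℝ) < K₁ := by exact_mod_cast hK₁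
  have hK0 : (0 : ℝ) < K := by exact_mod_cast lt_of_lt_of_le hK₁ hK
  have hK₀' : (0 : ℝ) < K₀ := by exact_mod_cast hK₀
  set R : ℕ → ℝ := fun m => (K₁ : ℝ) / K * ∑ b ∈ range (K / K₁),
        2 * SB u (2 * K₁) (m + b * K₁) + (K₁ : ℝ) / K with hR
  have hR0 : ∀ m, 0 ≤ R m := fun m => by
    rw [hR]
    have : 0 ≤ ∑ b ∈ range (K / K₁), 2 * SB u (2 * K₁) (m + b * K₁) :=
      Finset.sum_nonneg fun b _ => mul_nonneg (by norm_num) (hSB _)
    positivity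
  -- one interval
  have e1 : ∀ (k : Fin j → Fin K), ∀ J ∈ I,
      ‖∑ n ∈ Ioc J.1 J.2, w n * ∏ i, Fk u ((k i : ℕ) + 1) n‖ ≤
      ∑ m ∈ Ico J.1 J.2, ‖(∑ h ∈ Icc 1 K₁, (if m + h ≤ J.2 then w (m + h) else 0) *
        ∏ i, Fk u ((k i : ℕ) + 1) (m + h)) / K₁‖ + K₁ := by
    intro k J hJ
    have := interval_le (fun n => w n * ∏ i, Fk u ((k i : ℕ) + 1) n) (fun n => by
      rw [norm_mul, norm_prod]
      refine mul_le_one₀ (hw n) (by positivity) ?_
      refine Finset.prod_le_one (fun _ _ => norm_nonneg _) fun i _ => ?_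
      rw [norm_Fk hu]) K₁ J.1 J.2 hK₁ (by have := (hI J hJ).1; omega)
    refine this.trans (le_of_eq ?_)
    simp only [ite_mul, zero_mul]
  -- average
  have e2 : ∀ (J : ℕ × ℕ) (m : ℕ), ∑ k : Fin j → Fin K,
      ‖(∑ h ∈ Icc 1 K₁, (if m + h ≤ J.2 then w (m + h) else 0) *
        ∏ i, Fk u ((k i : ℕ) + 1) (m + h)) / K₁‖ ≤ (K : ℝ) ^ j * (δ + R m / (4 * δ)) := by
    intro J m
    have h := hB u hu K₁ K m j (fun h => if m + h ≤ J.2 then w (m + h) else 0) hK₁ hK hj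
      (fun h => by
        split_ifs
        · exact hw _
        · simp)
    set s := (∑ k : Fin j → Fin K,
      ‖(∑ h ∈ Icc 1 K₁, (if m + h ≤ J.2 then w (m + h) else 0) *
        ∏ i, Fk u ((k i : ℕ) + 1) (m + h)) / K₁‖) / (K : ℝ) ^ j with hs
    have h2 : s ≤ δ + R m / (4 * δ) := by
      have h3 : s ^ 2 ≤ R m := h
      have h4 : (s - 2 * δ) ^ 2 ≥ 0 := sq_nonneg _
      have h5 : s * (4 * δ) ≤ (δ + R m / (4 * δ)) * (4 * δ) := by
        rw [add_mul, div_mul_cancel₀ _ (by positivity)]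
        nlinarith
      exact le_of_mul_le_mul_right h5 (by positivity)
    have hKj : (0 : ℝ) < (K : ℝ) ^ j := by positivity
    have h6 : ∑ k : Fin j → Fin K,
      ‖(∑ h ∈ Icc 1 K₁, (if m + h ≤ J.2 then w (m + h) else 0) *
        ∏ i, Fk u ((k i : ℕ) + 1) (m + h)) / K₁‖ = (K : ℝ) ^ j * s := by
      rw [hs]
      field_simp
    rw [h6]
    exact mul_le_mul_of_nonneg_left h2 hKj.le
  calc ∑ k : Fin j → Fin K, ∑ J ∈ I, ‖∑ n ∈ Ioc J.1 J.2, w n * ∏ i, Fk u ((k i : ℕ) + 1) n‖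
      ≤ ∑ k : Fin j → Fin K, ∑ J ∈ I, (∑ m ∈ Ico J.1 J.2,
        ‖(∑ h ∈ Icc 1 K₁, (if m + h ≤ J.2 then w (m + h) else 0) *
        ∏ i, Fk u ((k i : ℕ) + 1) (m + h)) / K₁‖ + K₁) :=
        Finset.sum_le_sum fun k _ => Finset.sum_le_sum fun J hJ => e1 k J hJ
    _ = ∑ J ∈ I, ∑ m ∈ Ico J.1 J.2, (∑ k : Fin j → Fin K,
        ‖(∑ h ∈ Icc 1 K₁, (if m + h ≤ J.2 then w (m + h) else 0) *
        ∏ i, Fk u ((k i : ℕ) + 1) (m + h)) / K₁‖) + (K : ℝ) ^ j * (#I * K₁) := by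
        rw [Finset.sum_comm]
        simp only [Finset.sum_add_distrib]
        congr 1
        · refine Finset.sum_congr rfl fun J _ => ?_
          rw [Finset.sum_comm]
        · simp only [Finset.sum_const, nsmul_eq_mul, Finset.card_univ, Fintype.card_fun,
            Fintype.card_fin]
          push_cast
          ring
    _ ≤ ∑ J ∈ I, ∑ m ∈ Ico J.1 J.2, (K : ℝ) ^ j * (δ + R m / (4 * δ)) +
        (K : ℝ) ^ j * (#I * K₁) :=
        add_le_add (Finset.sum_le_sum fun J _ => Finset.sum_le_sum fun m _ => e2 J m) le_rfl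
    _ ≤ ∑ m ∈ range N, (K : ℝ) ^ j * (δ + R m / (4 * δ)) + (K : ℝ) ^ j * ((K₁ : ℝ) / K₀ * N) := by
        refine add_le_add ?_ (mul_le_mul_of_nonneg_left ?_ (by positivity))
        · exact sum_disj I N (fun J hJ => (hI J hJ).2) hd _ fun m => by
            have := hR0 m
            positivity
        · have h := card_le I K₀ N hI hd
          have h' : (#I : ℝ) * K₀ ≤ N := by exact_mod_cast h
          rw [div_mul_eq_mul_div, le_div_iff₀ hK₀']
          calc (#I : ℝ) * K₁ * K₀ = K₁ * (#I * K₀) := by ring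
            _ ≤ K₁ * N := mul_le_mul_of_nonneg_left h' hK₁'.le
    _ = _ := by
        rw [← Finset.mul_sum, ← mul_add]

theorem pf_CRF (hB : T_CRB) (hS : T_SBX) : T_CRF := by
  intro u hU hT ε hε
  have hu := hU.1
  set δ : ℝ := ε / 8 with hδ
  have hδ0 : 0 < δ := by positivity
  obtain ⟨K₁, hK₁, hT1⟩ := hT (δ ^ 2 / 4) (by positivity)
  have hK₁' : (0 : ℝ) < K₁ := by exact_mod_cast hK₁
  obtain ⟨A, hA⟩ := exists_nat_gt (max (K₁ / δ) (max (K₁ / (4 * δ ^ 2))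
    (Real.exp (max 1 (1 / δ ^ 2)))))
  have hA1 : K₁ / δ < A := lt_of_le_of_lt (le_max_left _ _) hA
  have hA2 : K₁ / (4 * δ ^ 2) < A :=
    lt_of_le_of_lt ((le_max_left _ _).trans (le_max_right _ _)) hA
  have hA3 : Real.exp (max 1 (1 / δ ^ 2)) < A :=
    lt_of_le_of_lt ((le_max_right _ _).trans (le_max_right _ _)) hA
  refine ⟨max (max K₁ A) 2, lt_of_lt_of_le (by norm_num) (le_max_right _ _), ?_⟩
  intro K x y j w I hK hKx hxy hj hw hI hd
  set K₀ := max (max K₁ A) 2 with hK₀def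
  have hK₀1 : K₁ ≤ K₀ := (le_max_left _ _).trans (le_max_left _ _)
  have hK₀A : A ≤ K₀ := (le_max_right _ _).trans (le_max_left _ _)
  have hK₀2 : 2 ≤ K₀ := le_max_right _ _
  have hK₀ : 0 < K₀ := by omega
  have hK₀' : (0 : ℝ) < K₀ := by exact_mod_cast hK₀
  have hK0 : 0 < K := by omega
  have hK0' : (0 : ℝ) < K := by exact_mod_cast hK0
  have hx : 0 < x := by omega
  have hx' : (0 : ℝ) < x := by exact_mod_cast hx
  have hK1K : K₁ ≤ K := hK₀1.trans hK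
  have hxy' : x ≤ y := le_trans (Nat.le_mul_of_pos_left x hK₀) hxy
  have hSB : ∀ n, 0 ≤ SB u (2 * K₁) n ∧ SB u (2 * K₁) n ≤ 1 := fun n =>
    ⟨(hS u hu (2 * K₁) n).2.1, (hS u hu (2 * K₁) n).2.2.1⟩
  have hAK : (A : ℝ) ≤ K₀ := by exact_mod_cast hK₀A
  -- the logarithm
  set L := Real.log ((y : ℝ) / x) with hL
  have hyx : (K₀ : ℝ) ≤ (y : ℝ) / x := by
    rw [le_div_iff₀ hx']
    exact_mod_cast hxy
  have hL0 : max 1 (1 / δ ^ 2) ≤ L := by
    rw [hL, Real.le_log_iff_exp_le (lt_of_lt_of_le hK₀' hyx)]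
    linarith
  have hL1 : 1 ≤ L := (le_max_left _ _).trans hL0
  have hL2 : 1 / δ ^ 2 ≤ L := (le_max_right _ _).trans hL0
  -- the sum of the suprema
  have hsg : ∑ m ∈ Icc x (2 * y), SB u (2 * K₁) m / m ≤ δ ^ 2 / 4 * (2 * L) := by
    have h0 : K₁ * x ≤ 2 * y := by
      have : K₁ * x ≤ K₀ * x := Nat.mul_le_mul_right _ hK₀1
      omega
    refine (hT1 (2 * K₁) x (2 * y) (by omega) (by omega) h0).trans
      (mul_le_mul_of_nonneg_left ?_ (by positivity))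
    have h2 : (2 : ℝ) ≤ (y : ℝ) / x :=
      le_trans (show (2 : ℝ) ≤ (K₀ : ℝ) by exact_mod_cast hK₀2) hyx
    have e : ((2 * y : ℕ) : ℝ) / x = 2 * ((y : ℝ) / x) := by
      push_cast
      ring
    rw [e, Real.log_mul (by norm_num) (by linarith), two_mul]
    have h3 := Real.log_le_log (by norm_num) h2
    linarith
  -- one N
  have e1 : ∀ N ∈ Icc x y, (∑ k : Fin j → Fin K, ∑ J ∈ I N,
      ‖∑ n ∈ Ioc J.1 J.2, w N n * ∏ i, Fk u ((k i : ℕ) + 1) n‖) / ((K : ℝ) ^ j * (N : ℝ) ^ 2) ≤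
      (δ + (K₁ : ℝ) / K / (4 * δ) + (K₁ : ℝ) / K₀) * (1 / N) + (K₁ : ℝ) / K / (2 * δ) *
        ∑ b ∈ range (K / K₁), (∑ m ∈ range N, SB u (2 * K₁) (m + b * K₁)) / (N : ℝ) ^ 2 := by
    intro N hN
    rw [mem_Icc] at hN
    have hN0 : 0 < N := lt_of_lt_of_le hx hN.1
    have hN' : (0 : ℝ) < N := by exact_mod_cast hN0
    have h := one_N hB u hu K₁ K K₀ N j δ (w N) (I N) hK₁ hK1K hK₀ hj hδ0 (fun n => (hSB n).1)
      (hw N) (hI N) (hd N)
    rw [div_le_iff₀ (by positivity)]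
    refine h.trans (le_of_eq ?_)
    have e2 : ∑ m ∈ range N, (δ + ((K₁ : ℝ) / K * ∑ b ∈ range (K / K₁),
        2 * SB u (2 * K₁) (m + b * K₁) + (K₁ : ℝ) / K) / (4 * δ)) =
        N * δ + (K₁ : ℝ) / K / (2 * δ) * (∑ b ∈ range (K / K₁), ∑ m ∈ range N,
          SB u (2 * K₁) (m + b * K₁)) + N * ((K₁ : ℝ) / K / (4 * δ)) := by
      rw [Finset.sum_comm (s := range (K / K₁))]
      simp only [Finset.sum_add_distrib, add_div, Finset.sum_const, card_range, nsmul_eq_mul]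
      rw [Finset.mul_sum, add_assoc]
      congr 2
      refine Finset.sum_congr rfl fun m _ => ?_
      rw [← Finset.mul_sum]
      field_simp
      ring
    rw [e2, ← Finset.sum_div]
    field_simp
    ring
  refine (Finset.sum_le_sum e1).trans ?_
  rw [Finset.sum_add_distrib, ← Finset.mul_sum, ← Finset.mul_sum, Finset.sum_comm]
  have e3 : ∑ N ∈ Icc x y, (1 : ℝ) / N ≤ 2 * L := by
    have := sum_window hx hxy'
    linarith
  have e4 : ∑ b ∈ range (K / K₁), ∑ N ∈ Icc x y,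
      (∑ m ∈ range N, SB u (2 * K₁) (m + b * K₁)) / (N : ℝ) ^ 2 ≤
      (K : ℝ) / K₁ * (2 + 4 * (δ ^ 2 / 4 * (2 * L))) := by
    have h : ∀ b ∈ range (K / K₁), ∑ N ∈ Icc x y,
      (∑ m ∈ range N, SB u (2 * K₁) (m + b * K₁)) / (N : ℝ) ^ 2 ≤
      2 + 4 * (δ ^ 2 / 4 * (2 * L)) := by
      intro b hb
      rw [mem_range] at hb
      have hb' : b * K₁ ≤ x := by
        calc b * K₁ ≤ K / K₁ * K₁ := Nat.mul_le_mul_right _ hb.le
          _ ≤ K := Nat.div_mul_le_self _ _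
          _ ≤ x := hKx
      refine (sum_shift (SB u (2 * K₁)) (fun n => (hSB n).1) (fun n => (hSB n).2) (b * K₁) x y hx
        hb').trans ?_
      linarith
    refine (Finset.sum_le_sum h).trans ?_
    rw [Finset.sum_const, card_range, nsmul_eq_mul]
    exact mul_le_mul_of_nonneg_right Nat.cast_div_le (by positivity)
  have c1 : (K₁ : ℝ) / K ≤ (K₁ : ℝ) / K₀ :=
    div_le_div_of_nonneg_left hK₁'.le hK₀' (by exact_mod_cast hK)
  have c2 : (K₁ : ℝ) / K₀ ≤ δ := by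
    rw [div_le_iff₀ hK₀']
    rw [div_lt_iff₀ hδ0] at hA1
    nlinarith
  have c3 : (K₁ : ℝ) / K / (4 * δ) ≤ δ := by
    rw [div_le_iff₀ (by positivity)]
    refine c1.trans ?_
    rw [div_le_iff₀ hK₀']
    rw [div_lt_iff₀ (by positivity)] at hA2
    nlinarith
  have f1 : (δ + (K₁ : ℝ) / K / (4 * δ) + (K₁ : ℝ) / K₀) * ∑ N ∈ Icc x y, (1 : ℝ) / N ≤
      3 * δ * (2 * L) :=
    mul_le_mul (by linarith) e3 (Finset.sum_nonneg fun _ _ => by positivity) (by positivity)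
  have f2 : (K₁ : ℝ) / K / (2 * δ) * ∑ b ∈ range (K / K₁), ∑ N ∈ Icc x y,
      (∑ m ∈ range N, SB u (2 * K₁) (m + b * K₁)) / (N : ℝ) ^ 2 ≤ 2 * δ * L := by
    refine (mul_le_mul_of_nonneg_left e4 (by positivity)).trans ?_
    have g1 : (K₁ : ℝ) / K / (2 * δ) * ((K : ℝ) / K₁ * (2 + 4 * (δ ^ 2 / 4 * (2 * L)))) =
        1 / δ + δ * L := by
      field_simp
    have g2 : 1 / δ ≤ δ * L := by
      rw [div_le_iff₀ (by positivity)] at hL2
      rw [div_le_iff₀ hδ0]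
      nlinarith
    rw [g1]
    linarith
  calc _ ≤ 3 * δ * (2 * L) + 2 * δ * L := add_le_add f1 f2
    _ = ε * L := by
      rw [hδ]
      ring

end Pool.Agent.H14.LF
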