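import Pool.Agent.H28.LF.F4
import Pool.Agent.H14.LF.CRB
import Pool.Agent.H14.LF.CRF

/-!
Project LF, modules CRH and CRG: families of disjoint intervals which depend on the length of the
product.
-/

set_option autoImplicit false

open Finset

namespace Pool.Agent.H14.LF

open Pool.Agent.H28.LF

theorem sum_blk (G : ℕ → ℝ) (K₁ : ℕ) : ∀ B : ℕ,
    ∑ i ∈ range (B * K₁), G i = ∑ b ∈ range B, ∑ i ∈ range K₁, G (b * K₁ + i)
  | 0 => by simp
  | B + 1 => by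
    rw [Nat.succ_mul, Finset.sum_range_add, Finset.sum_range_succ, sum_blk G K₁ B]

theorem sum_blk' (G : ℕ → ℝ) (hG : ∀ i, G i ≤ 1) (K₁ K : ℕ) (hK : 0 < K₁) :
    ∑ i ∈ range K, G i ≤ ∑ b ∈ range (K / K₁), ∑ i ∈ range K₁, G (b * K₁ + i) + K₁ := by
  have e : K = K / K₁ * K₁ + K % K₁ := by
    rw [mul_comm]
    exact (Nat.div_add_mod K K₁).symm
  conv_lhs => rw [e]
  rw [Finset.sum_range_add, sum_blk]
  refine add_le_add le_rfl ?_
  refine (Finset.sum_le_sum (g := fun _ => (1 : ℝ)) fun i _ => hG _).trans ?_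
  simp only [Finset.sum_const, Finset.card_range, nsmul_eq_mul, mul_one]
  exact_mod_cast (Nat.mod_lt K hK).le

theorem range_Icc' (F : ℕ → ℝ) (K : ℕ) : ∑ i ∈ range K, F (i + 1) = ∑ i ∈ Icc 1 K, F i := by
  rw [Finset.range_eq_Ico, Finset.sum_Ico_add' F 0 K 1]
  refine Finset.sum_congr ?_ fun i _ => rfl
  ext i
  simp only [mem_Ico, mem_Icc]
  omega

theorem pf_CRH (h1 : T_CR1) : T_CRH := by
  intro u hu K₁ K n w hK₁ hK hw
  have hK₁' : (0 : ℝ) < K₁ := by exact_mod_cast hK₁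
  have hK0 : (0 : ℝ) < K := by exact_mod_cast lt_of_lt_of_le hK₁ hK
  have hc : ∀ a m : ℕ, (starRingEnd ℂ) (Fk u a m) * Fk u a m = 1 := by
    intro a m
    rw [Complex.conj_mul', norm_Fk hu]
    simp
  have e0 : ∀ a k m : ℕ, Fk u k (m + a) = (starRingEnd ℂ) (Fk u a m) * Fk u (a + k) m := by
    intro a k m
    rw [← Fk_add, ← mul_assoc, hc, one_mul]
  set A : ℕ → ℝ := fun k => ‖(∑ h ∈ Icc 1 K₁, w h * Fk u k (n + h)) / K₁‖ with hA
  have hA1 : ∀ k, A k ≤ 1 := by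
    intro k
    rw [hA]
    simp only
    rw [norm_div, Complex.norm_natCast, div_le_one hK₁']
    refine (norm_sum_le _ _).trans ?_
    refine (Finset.sum_le_sum (g := fun _ => (1 : ℝ)) fun i _ => ?_).trans (by simp)
    rw [norm_mul, norm_Fk hu, mul_one]
    exact hw i
  have e1 : ∑ k ∈ Icc 1 K, A k ≤
      ∑ b ∈ range (K / K₁), ∑ i ∈ Icc 1 K₁, A (b * K₁ + i) + K₁ := by
    rw [← range_Icc' A K]
    refine (sum_blk' (fun i => A (i + 1)) (fun i => hA1 _) K₁ K hK₁).trans (le_of_eq ?_)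
    congr 1
    refine Finset.sum_congr rfl fun b _ => ?_
    rw [← range_Icc' (fun i => A (b * K₁ + i)) K₁]
    rfl
  have e2 : ∀ b, ∑ i ∈ Icc 1 K₁, A (b * K₁ + i) ≤ K₁ * (2 * SB u (2 * K₁) (n + b * K₁)) := by
    intro b
    have h2 := h1 u hu K₁ (n + b * K₁) (fun h => w h * ((starRingEnd ℂ) (Fk u h n) *
      Fk u (b * K₁) n * Fk u h (n + b * K₁))) hK₁ (fun h => by
        rw [norm_mul, norm_mul, norm_mul, RCLike.norm_conj, norm_Fk hu, norm_Fk hu, norm_Fk hu,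
          mul_one, mul_one, mul_one]
        exact hw h)
    rw [div_le_iff₀ hK₁'] at h2
    rw [mul_comm (K₁ : ℝ)]
    refine le_trans (le_of_eq ?_) h2
    refine Finset.sum_congr rfl fun i _ => ?_
    rw [hA]
    simp only
    congr 2
    refine Finset.sum_congr rfl fun h _ => ?_
    have a1 : Fk u (b * K₁ + i) (n + h) =
        (starRingEnd ℂ) (Fk u h n) * Fk u (h + (b * K₁ + i)) n := e0 h _ n
    have a2 : Fk u (b * K₁) n * Fk u (h + i) (n + b * K₁) = Fk u (b * K₁ + (h + i)) n :=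
      Fk_add u _ _ _
    have a3 : Fk u h (n + b * K₁) * Fk u i (n + b * K₁ + h) = Fk u (h + i) (n + b * K₁) :=
      Fk_add u _ _ _
    rw [a1, show h + (b * K₁ + i) = b * K₁ + (h + i) by ring, ← a2, ← a3]
    ring
  rw [div_le_iff₀ hK0]
  have e3 : ∑ b ∈ range (K / K₁), ∑ i ∈ Icc 1 K₁, A (b * K₁ + i) ≤
      K₁ * ∑ b ∈ range (K / K₁), 2 * SB u (2 * K₁) (n + b * K₁) := by
    rw [Finset.mul_sum]
    exact Finset.sum_le_sum fun b _ => e2 b
  refine (e1.trans (add_le_add e3 le_rfl)).trans (le_of_eq ?_)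
  field_simp

/-- the sum over an interval is controlled by the full short sums -/
theorem interval_full (v : ℕ → ℂ) (hv : ∀ n, ‖v n‖ ≤ 1) (K₁ a b : ℕ) (hK : 0 < K₁)
    (hab : a ≤ b) : ‖∑ n ∈ Ioc a b, v n‖ ≤ ∑ m ∈ Ico a b,
      ‖(∑ h ∈ Icc 1 K₁, v (m + h)) / K₁‖ + 2 * K₁ := by
  have hK' : (0 : ℝ) < K₁ := by exact_mod_cast hK
  have s1 : ∀ c : ℕ, ‖∑ m ∈ Ico a b, v (m + (c + 1)) - ∑ n ∈ Ioc a b, v n‖ ≤ 2 * c := by
    intro c
    induction c with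
    | zero =>
      have : ∑ m ∈ Ico a b, v (m + (0 + 1)) = ∑ n ∈ Ioc a b, v n := by
        rw [zero_add, Finset.sum_Ico_add' v a b 1]
        refine Finset.sum_congr ?_ fun n hn => rfl
        ext n
        simp only [mem_Ico, mem_Ioc]
        omega
      rw [this]
      simp
    | succ c ih =>
      have e : ∑ m ∈ Ico a b, v (m + (c + 1 + 1)) =
          ∑ m ∈ Ico a b, v (m + (c + 1)) + (v (b + (c + 1)) - v (a + (c + 1))) := by
        have h1 := Finset.sum_Ico_add' (fun m => v (m + (c + 1))) a b 1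
        have h2 := Finset.sum_Ico_succ_top hab (fun m => v (m + (c + 1)))
        have h3 := Finset.sum_eq_sum_Ico_succ_bot (Nat.lt_succ_of_le hab)
          (fun m => v (m + (c + 1)))
        have h4 : ∑ m ∈ Ico a b, v (m + (c + 1 + 1)) = ∑ m ∈ Ico a b, v (m + 1 + (c + 1)) :=
          Finset.sum_congr rfl fun m _ => by congr 1; ring
        rw [h4, h1]
        rw [Nat.succ_eq_add_one, h2] at h3
        linear_combination -h3
      have e2 : ∑ m ∈ Ico a b, v (m + (c + 1 + 1)) - ∑ n ∈ Ioc a b, v n =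
          (∑ m ∈ Ico a b, v (m + (c + 1)) - ∑ n ∈ Ioc a b, v n) +
            (v (b + (c + 1)) - v (a + (c + 1))) := by
        rw [e]
        ring
      rw [e2]
      refine (norm_add_le _ _).trans ?_
      push_cast
      have e3 : ‖v (b + (c + 1)) - v (a + (c + 1))‖ ≤ 2 := by
        refine (norm_sub_le _ _).trans ?_
        linarith [hv (b + (c + 1)), hv (a + (c + 1))]
      linarith
  have s2 : (K₁ : ℂ) * ∑ n ∈ Ioc a b, v n = ∑ m ∈ Ico a b, ∑ h ∈ Icc 1 K₁, v (m + h) -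
      ∑ h ∈ Icc 1 K₁, (∑ m ∈ Ico a b, v (m + h) - ∑ n ∈ Ioc a b, v n) := by
    rw [Finset.sum_sub_distrib, Finset.sum_comm, Finset.sum_const, Nat.card_Icc,
      show K₁ + 1 - 1 = K₁ by omega, nsmul_eq_mul]
    ring
  have s3 : ‖∑ h ∈ Icc 1 K₁, (∑ m ∈ Ico a b, v (m + h) - ∑ n ∈ Ioc a b, v n)‖ ≤
      (K₁ : ℝ) * (2 * K₁) := by
    refine (norm_sum_le _ _).trans ?_
    refine (Finset.sum_le_sum (g := fun _ => 2 * (K₁ : ℝ)) fun h hh => ?_).trans (by simp)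
    rw [mem_Icc] at hh
    obtain ⟨c, rfl⟩ : ∃ c, h = c + 1 := ⟨h - 1, by omega⟩
    refine (s1 c).trans ?_
    have : (c : ℝ) ≤ K₁ := by exact_mod_cast (show c ≤ K₁ by omega)
    linarith
  have s4 : (K₁ : ℝ) * ‖∑ n ∈ Ioc a b, v n‖ ≤
      ∑ m ∈ Ico a b, ‖∑ h ∈ Icc 1 K₁, v (m + h)‖ + K₁ * (2 * K₁) := by
    have : (K₁ : ℝ) * ‖∑ n ∈ Ioc a b, v n‖ = ‖(K₁ : ℂ) * ∑ n ∈ Ioc a b, v n‖ := by
      rw [norm_mul, Complex.norm_natCast]
    rw [this, s2]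
    exact (norm_sub_le _ _).trans (add_le_add (norm_sum_le _ _) s3)
  have s5 : ∑ m ∈ Ico a b, ‖(∑ h ∈ Icc 1 K₁, v (m + h)) / K₁‖ =
      (∑ m ∈ Ico a b, ‖∑ h ∈ Icc 1 K₁, v (m + h)‖) / K₁ := by
    rw [Finset.sum_div]
    refine Finset.sum_congr rfl fun m _ => ?_
    rw [norm_div, Complex.norm_natCast]
  rw [s5]
  have : (∑ m ∈ Ico a b, ‖∑ h ∈ Icc 1 K₁, v (m + h)‖) / K₁ + 2 * K₁ =
      (∑ m ∈ Ico a b, ‖∑ h ∈ Icc 1 K₁, v (m + h)‖ + K₁ * (2 * K₁)) / K₁ := by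
    field_simp
  rw [this, le_div_iff₀ hK']
  linarith [s4]

/-- the bound for one `N` -/
theorem one_N' (hH : T_CRH) (u : Bool × Bool → ℂ) (hu : ∀ b, ‖u b‖ = 1) (K₁ K K₀ N : ℕ)
    (w : ℕ → ℂ) (I : ℕ → Finset (ℕ × ℕ)) (hK₁ : 0 < K₁) (hK : K₁ ≤ K) (hK₀ : 0 < K₀)
    (hw : ∀ n, ‖w n‖ ≤ 1) (hI : ∀ k, ∀ J ∈ I k, J.1 + K₀ ≤ J.2 ∧ J.2 ≤ N)
    (hd : ∀ k, (I k : Set (ℕ × ℕ)).PairwiseDisjoint (fun J => Ioc J.1 J.2)) :
    ∑ k ∈ Icc 1 K, ∑ J ∈ I k, ‖∑ n ∈ Ioc J.1 J.2, w n * Fk u k n‖ ≤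
      (K : ℝ) * (∑ m ∈ range N, ((K₁ : ℝ) / K * ∑ b ∈ range (K / K₁),
        2 * SB u (2 * K₁) (m + b * K₁) + (K₁ : ℝ) / K) + 2 * ((K₁ : ℝ) / K₀) * N) := by
  have hK₁' : (0 : ℝ) < K₁ := by exact_mod_cast hK₁
  have hK0 : (0 : ℝ) < K := by exact_mod_cast lt_of_lt_of_le hK₁ hK
  have hK₀' : (0 : ℝ) < K₀ := by exact_mod_cast hK₀
  set W : ℕ → ℕ → ℝ := fun k m => ‖(∑ h ∈ Icc 1 K₁, w (m + h) * Fk u k (m + h)) / K₁‖ with hW
  have e1 : ∀ k, ∑ J ∈ I k, ‖∑ n ∈ Ioc J.1 J.2, w n * Fk u k n‖ ≤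
      ∑ m ∈ range N, W k m + 2 * ((K₁ : ℝ) / K₀) * N := by
    intro k
    have a1 : ∀ J ∈ I k, ‖∑ n ∈ Ioc J.1 J.2, w n * Fk u k n‖ ≤
        ∑ m ∈ Ico J.1 J.2, W k m + 2 * K₁ := by
      intro J hJ
      exact interval_full (fun n => w n * Fk u k n) (fun n => by
        rw [norm_mul, norm_Fk hu, mul_one]
        exact hw n) K₁ J.1 J.2 hK₁ (by have := (hI k J hJ).1; omega)
    refine (Finset.sum_le_sum a1).trans ?_
    rw [Finset.sum_add_distrib]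
    refine add_le_add (sum_disj (I k) N (fun J hJ => (hI k J hJ).2) (hd k) _
      fun m => norm_nonneg _) ?_
    have h := card_le (I k) K₀ N (hI k) (hd k)
    have h' : (#(I k) : ℝ) * K₀ ≤ N := by exact_mod_cast h
    rw [Finset.sum_const, nsmul_eq_mul]
    have h2 : (#(I k) : ℝ) ≤ N / K₀ := by
      rw [le_div_iff₀ hK₀']
      exact h'
    calc (#(I k) : ℝ) * (2 * K₁) ≤ N / K₀ * (2 * K₁) :=
          mul_le_mul_of_nonneg_right h2 (by positivity)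
      _ = 2 * ((K₁ : ℝ) / K₀) * N := by ring
  refine (Finset.sum_le_sum fun k _ => e1 k).trans ?_
  rw [Finset.sum_add_distrib, Finset.sum_comm, mul_add]
  refine add_le_add ?_ (le_of_eq ?_)
  · rw [Finset.mul_sum]
    refine Finset.sum_le_sum fun m _ => ?_
    have h := hH u hu K₁ K m (fun h => w (m + h)) hK₁ hK (fun h => hw _)
    rw [div_le_iff₀ hK0] at h
    rw [mul_comm (K : ℝ)]
    exact h
  · rw [Finset.sum_const, Nat.card_Icc, nsmul_eq_mul]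
    simp

theorem pf_CRG (hH : T_CRH) (hS : T_SBX) : T_CRG := by
  intro u hU hT ε hε
  have hu := hU.1
  obtain ⟨K₁, hK₁, hT1⟩ := hT (ε / 64) (by positivity)
  have hK₁' : (0 : ℝ) < K₁ := by exact_mod_cast hK₁
  obtain ⟨A, hA⟩ := exists_nat_gt (max (24 * K₁ / ε) (Real.exp (max 1 (16 / ε))))
  have hA1 : 24 * K₁ / ε < A := lt_of_le_of_lt (le_max_left _ _) hA
  have hA3 : Real.exp (max 1 (16 / ε)) < A := lt_of_le_of_lt (le_max_right _ _) hA
  refine ⟨max (max K₁ A) 2, lt_of_lt_of_le (by norm_num) (le_max_right _ _), ?_⟩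
  intro K x y w I hK hKx hxy hw hI hd
  set K₀ := max (max K₁ A) 2 with hK₀def
  have hK₀1 : K₁ ≤ K₀ := (le_max_left _ _).trans (le_max_left _ _)
  have hK₀A : A ≤ K₀ := (le_max_right _ _).trans (le_max_left _ _)
  have hK₀2 : 2 ≤ K₀ := le_max_right _ _
  have hK₀ : 0 < K₀ := by omega
  have hK₀' : (0 : ℝ) < K₀ := by exact_mod_cast hK₀
  have hK0 : 0 < K := by omega
  have hK0' : (0 : ℝ) < K := by exact_mod_cast hK0
  have hx : 0 < x := by omega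
  have hx' : (0 : ℝ) < x := by exact_mod_cast hx
  have hK1K : K₁ ≤ K := hK₀1.trans hK
  have hxy' : x ≤ y := le_trans (Nat.le_mul_of_pos_left x hK₀) hxy
  have hSB : ∀ n, 0 ≤ SB u (2 * K₁) n ∧ SB u (2 * K₁) n ≤ 1 := fun n =>
    ⟨(hS u hu (2 * K₁) n).2.1, (hS u hu (2 * K₁) n).2.2.1⟩
  have hAK : (A : ℝ) ≤ K₀ := by exact_mod_cast hK₀A
  -- the logarithm
  set L := Real.log ((y : ℝ) / x) with hL
  have hyx : (K₀ : ℝ) ≤ (y : ℝ) / x := by
    rw [le_div_iff₀ hx']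
    exact_mod_cast hxy
  have hL0 : max 1 (16 / ε) ≤ L := by
    rw [hL, Real.le_log_iff_exp_le (lt_of_lt_of_le hK₀' hyx)]
    linarith
  have hL1 : 1 ≤ L := (le_max_left _ _).trans hL0
  have hL2 : 16 / ε ≤ L := (le_max_right _ _).trans hL0
  -- the sum of the suprema
  have hsg : ∑ m ∈ Icc x (2 * y), SB u (2 * K₁) m / m ≤ ε / 64 * (2 * L) := by
    have h0 : K₁ * x ≤ 2 * y := by
      have : K₁ * x ≤ K₀ * x := Nat.mul_le_mul_right _ hK₀1
      omega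
    refine (hT1 (2 * K₁) x (2 * y) (by omega) (by omega) h0).trans
      (mul_le_mul_of_nonneg_left ?_ (by positivity))
    have h2 : (2 : ℝ) ≤ (y : ℝ) / x :=
      le_trans (show (2 : ℝ) ≤ (K₀ : ℝ) by exact_mod_cast hK₀2) hyx
    have e : ((2 * y : ℕ) : ℝ) / x = 2 * ((y : ℝ) / x) := by
      push_cast
      ring
    rw [e, Real.log_mul (by norm_num) (by linarith), two_mul]
    have h3 := Real.log_le_log (by norm_num) h2
    linarith
  -- one N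
  have e1 : ∀ N ∈ Icc x y, (∑ k ∈ Icc 1 K, ∑ J ∈ I N k,
      ‖∑ n ∈ Ioc J.1 J.2, w N n * Fk u k n‖) / ((K : ℝ) * (N : ℝ) ^ 2) ≤
      ((K₁ : ℝ) / K + 2 * ((K₁ : ℝ) / K₀)) * (1 / N) + 2 * ((K₁ : ℝ) / K) *
        ∑ b ∈ range (K / K₁), (∑ m ∈ range N, SB u (2 * K₁) (m + b * K₁)) / (N : ℝ) ^ 2 := by
    intro N hN
    rw [mem_Icc] at hN
    have hN0 : 0 < N := lt_of_lt_of_le hx hN.1
    have hN' : (0 : ℝ) < N := by exact_mod_cast hN0
    have h := one_N' hH u hu K₁ K K₀ N (w N) (I N) hK₁ hK1K hK₀ (hw N) (hI N) (hd N)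
    rw [div_le_iff₀ (by positivity)]
    refine h.trans (le_of_eq ?_)
    have e2 : ∑ m ∈ range N, ((K₁ : ℝ) / K * ∑ b ∈ range (K / K₁),
        2 * SB u (2 * K₁) (m + b * K₁) + (K₁ : ℝ) / K) =
        2 * ((K₁ : ℝ) / K) * (∑ b ∈ range (K / K₁), ∑ m ∈ range N,
          SB u (2 * K₁) (m + b * K₁)) + N * ((K₁ : ℝ) / K) := by
      rw [Finset.sum_comm (s := range (K / K₁))]
      simp only [Finset.sum_add_distrib, Finset.sum_const, card_range, nsmul_eq_mul]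
      rw [Finset.mul_sum]
      congr 1
      refine Finset.sum_congr rfl fun m _ => ?_
      rw [← Finset.mul_sum]
      ring
    rw [e2, ← Finset.sum_div]
    field_simp
    ring
  refine (Finset.sum_le_sum e1).trans ?_
  rw [Finset.sum_add_distrib, ← Finset.mul_sum, ← Finset.mul_sum, Finset.sum_comm]
  have e3 : ∑ N ∈ Icc x y, (1 : ℝ) / N ≤ 2 * L := by
    have := sum_window hx hxy'
    linarith
  have e4 : ∑ b ∈ range (K / K₁), ∑ N ∈ Icc x y,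
      (∑ m ∈ range N, SB u (2 * K₁) (m + b * K₁)) / (N : ℝ) ^ 2 ≤
      (K : ℝ) / K₁ * (2 + 4 * (ε / 64 * (2 * L))) := by
    have h : ∀ b ∈ range (K / K₁), ∑ N ∈ Icc x y,
      (∑ m ∈ range N, SB u (2 * K₁) (m + b * K₁)) / (N : ℝ) ^ 2 ≤
      2 + 4 * (ε / 64 * (2 * L)) := by
      intro b hb
      rw [mem_range] at hb
      have hb' : b * K₁ ≤ x := by
        calc b * K₁ ≤ K / K₁ * K₁ := Nat.mul_le_mul_right _ hb.le
          _ ≤ K := Nat.div_mul_le_self _ _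
          _ ≤ x := hKx
      refine (sum_shift (SB u (2 * K₁)) (fun n => (hSB n).1) (fun n => (hSB n).2) (b * K₁) x y hx
        hb').trans ?_
      linarith
    refine (Finset.sum_le_sum h).trans ?_
    rw [Finset.sum_const, card_range, nsmul_eq_mul]
    exact mul_le_mul_of_nonneg_right Nat.cast_div_le (by positivity)
  have c1 : (K₁ : ℝ) / K ≤ (K₁ : ℝ) / K₀ :=
    div_le_div_of_nonneg_left hK₁'.le hK₀' (by exact_mod_cast hK)
  have c2 : (K₁ : ℝ) / K₀ ≤ ε / 24 := by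
    rw [div_le_iff₀ hK₀']
    rw [div_lt_iff₀ hε] at hA1
    nlinarith
  have f1 : ((K₁ : ℝ) / K + 2 * ((K₁ : ℝ) / K₀)) * ∑ N ∈ Icc x y, (1 : ℝ) / N ≤
      ε / 8 * (2 * L) :=
    mul_le_mul (by linarith) e3 (Finset.sum_nonneg fun _ _ => by positivity) (by positivity)
  have f2 : 2 * ((K₁ : ℝ) / K) * ∑ b ∈ range (K / K₁), ∑ N ∈ Icc x y,
      (∑ m ∈ range N, SB u (2 * K₁) (m + b * K₁)) / (N : ℝ) ^ 2 ≤ ε / 2 * L := by
    refine (mul_le_mul_of_nonneg_left e4 (by positivity)).trans ?_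
    have g1 : 2 * ((K₁ : ℝ) / K) * ((K : ℝ) / K₁ * (2 + 4 * (ε / 64 * (2 * L)))) =
        4 + ε / 4 * L := by
      field_simp
      ring
    have g2 : 4 ≤ ε / 4 * L := by
      rw [div_le_iff₀ hε] at hL2
      linarith
    rw [g1]
    linarith
  have f3 : 0 ≤ ε * L := by positivity
  linarith

end Pool.Agent.H14.LF
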