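import Pool.Agent.H14.LF.LBL

/-!
# lfu THV and SBX: binary digits; the supremum over the frequencies
-/

set_option autoImplicit false

open Finset Filter Topology

namespace Pool.Agent.H14.LF

open Pool.Agent.H28.LF

theorem sum_half : Summable (fun s : ℕ => (1 : ℝ) / 2 ^ (s + 1)) := by
  have h := (summable_geometric_two).mul_left (1 / 2 : ℝ)
  refine h.congr fun s => ?_
  rw [pow_succ, one_div_pow]
  field_simp

theorem tsum_half : ∑' s : ℕ, (1 : ℝ) / 2 ^ (s + 1) = 1 := by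
  refine Eq.trans (tsum_congr fun s => ?_) (tsum_geometric_two' (1 : ℝ))
  rw [pow_succ]
  field_simp

theorem dig_nonneg (b : ℕ → Bool) (s : ℕ) :
    (0 : ℝ) ≤ (if b s then (1 : ℝ) else 0) / 2 ^ (s + 1) := by
  split_ifs <;> positivity

theorem dig_le (b : ℕ → Bool) (s : ℕ) :
    (if b s then (1 : ℝ) else 0) / 2 ^ (s + 1) ≤ 1 / 2 ^ (s + 1) := by
  refine div_le_div_of_nonneg_right ?_ (by positivity)
  split_ifs <;> norm_num

theorem thv_digits (t : ℝ) (h0 : 0 ≤ t) (h1 : t < 1) : ∃ b : ℕ → Bool, thv b = t := by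
  refine ⟨fun s => decide (⌊2 ^ (s + 1) * t⌋₊ % 2 = 1), ?_⟩
  obtain ⟨b, hb⟩ : ∃ b : ℕ → Bool, b = fun s => decide (⌊2 ^ (s + 1) * t⌋₊ % 2 = 1) := ⟨_, rfl⟩
  rw [← hb]
  have hpart : ∀ n : ℕ, ∑ s ∈ range n, (if b s then (1 : ℝ) else 0) / 2 ^ (s + 1) =
      (⌊2 ^ n * t⌋₊ : ℝ) / 2 ^ n := by
    intro n
    induction n with
    | zero =>
      have : ⌊2 ^ 0 * t⌋₊ = 0 := by
        rw [pow_zero, one_mul]
        exact Nat.floor_eq_zero.2 h1
      rw [Finset.sum_range_zero, this]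
      simp
    | succ n ih =>
      rw [Finset.sum_range_succ, ih]
      have e1 : ⌊2 ^ n * t⌋₊ = ⌊2 ^ (n + 1) * t⌋₊ / 2 := by
        have e2 : (2 : ℝ) ^ n * t = 2 ^ (n + 1) * t / (2 : ℕ) := by
          rw [pow_succ]; push_cast; ring
        rw [e2, Nat.floor_div_natCast]
      have e3 := Nat.div_add_mod ⌊2 ^ (n + 1) * t⌋₊ 2
      have e4 : ((⌊2 ^ (n + 1) * t⌋₊ : ℕ) : ℝ) = 2 * ((⌊2 ^ n * t⌋₊ : ℕ) : ℝ) +
          (if b n then (1 : ℝ) else 0) := by
        have e5 : (if b n then (1 : ℝ) else 0) = ((⌊2 ^ (n + 1) * t⌋₊ % 2 : ℕ) : ℝ) := by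
          rw [hb]
          rcases Nat.mod_two_eq_zero_or_one ⌊2 ^ (n + 1) * t⌋₊ with h | h <;> simp [h]
        rw [e5, e1]
        exact_mod_cast e3.symm
      rw [e4, pow_succ]
      field_simp
  have hlim : Tendsto (fun n : ℕ => (⌊2 ^ n * t⌋₊ : ℝ) / 2 ^ n) atTop (𝓝 t) := by
    have h2 : Tendsto (fun n : ℕ => t - (1 / 2 : ℝ) ^ n) atTop (𝓝 (t - 0)) :=
      tendsto_const_nhds.sub (tendsto_pow_atTop_nhds_zero_of_lt_one (by norm_num) (by norm_num))
    rw [sub_zero] at h2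
    refine tendsto_of_tendsto_of_tendsto_of_le_of_le h2 tendsto_const_nhds (fun n => ?_)
      (fun n => ?_)
    · show t - (1 / 2 : ℝ) ^ n ≤ (⌊2 ^ n * t⌋₊ : ℝ) / 2 ^ n
      have hp : (0 : ℝ) < 2 ^ n := by positivity
      have h3 := Nat.lt_floor_add_one (2 ^ n * t)
      rw [le_div_iff₀ hp, sub_mul, one_div_pow, one_div, inv_mul_cancel₀ hp.ne']
      linarith
    · show (⌊2 ^ n * t⌋₊ : ℝ) / 2 ^ n ≤ t
      have hp : (0 : ℝ) < 2 ^ n := by positivity
      rw [div_le_iff₀ hp, mul_comm t]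
      exact Nat.floor_le (by positivity)
  have hs : HasSum (fun s : ℕ => (if b s then (1 : ℝ) else 0) / 2 ^ (s + 1)) t := by
    rw [hasSum_iff_tendsto_nat_of_nonneg (dig_nonneg b)]
    exact hlim.congr fun n => (hpart n).symm
  exact hs.tsum_eq

theorem em_int (m : ℤ) : H28.LF.em (m : ℝ) = 1 := by
  unfold H28.LF.em
  have h : -(2 * (Real.pi : ℂ) * Complex.I * ((m : ℝ) : ℂ)) =
      ((-m : ℤ) : ℂ) * (2 * Real.pi * Complex.I) := by
    push_cast
    ring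
  rw [h, Complex.exp_int_mul_two_pi_mul_I]

theorem pf_THV : T_THV := by
  refine ⟨?_, ?_, ?_⟩
  · unfold thv
    refine continuous_tsum (u := fun s : ℕ => (1 : ℝ) / 2 ^ (s + 1)) (fun s => ?_) sum_half
      fun s b => ?_
    · refine Continuous.div_const ?_ _
      have h : Continuous fun c : Bool => if c then (1 : ℝ) else 0 := continuous_of_discreteTopology
      exact h.comp (continuous_apply s)
    · rw [Real.norm_of_nonneg (dig_nonneg b s)]
      exact dig_le b s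
  · intro b
    have hs : Summable fun s : ℕ => (if b s then (1 : ℝ) else 0) / 2 ^ (s + 1) :=
      sum_half.of_nonneg_of_le (dig_nonneg b) (dig_le b)
    refine ⟨tsum_nonneg (dig_nonneg b), ?_⟩
    rw [← tsum_half]
    exact hs.tsum_le_tsum (dig_le b) sum_half
  · intro θ
    obtain ⟨b, hb⟩ := thv_digits (Int.fract θ) (Int.fract_nonneg θ) (Int.fract_lt_one θ)
    refine ⟨b, fun k => ?_⟩
    rw [hb]
    have e : (k : ℝ) * θ = k * Int.fract θ + ((k * ⌊θ⌋ : ℤ) : ℝ) := by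
      have := Int.floor_add_fract θ
      push_cast
      rw [← mul_add, add_comm, this]
    rw [e, em_add, em_int, mul_one]

theorem mw_congr (u : Bool × Bool → ℂ) (K n : ℕ) (θ η : ℝ)
    (h : ∀ k : ℕ, H28.LF.em (k * θ) = H28.LF.em (k * η)) : mw u K θ n = mw u K η n := by
  unfold mw
  congr 1
  refine Finset.sum_congr rfl fun k _ => ?_
  have := h (k + 1)
  push_cast at this
  rw [this]

theorem pf_SBX (hT : T_THV) : T_SBX := by
  intro u hu K n
  have hbdd : BddAbove (Set.range fun θ : ℝ => ‖mw u K θ n‖) :=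
    ⟨1, by rintro _ ⟨θ, rfl⟩; exact norm_mw_le hu K θ n⟩
  have h1 : ∀ θ, ‖mw u K θ n‖ ≤ SB u K n := fun θ => le_ciSup hbdd θ
  have h2 : 0 ≤ SB u K n := (norm_nonneg _).trans (h1 0)
  refine ⟨h1, h2, ciSup_le fun θ => norm_mw_le hu K θ n, ?_⟩
  have h3 : ∃ θ : ℝ, SB u K n / 2 ≤ ‖mw u K θ n‖ := by
    rcases h2.eq_or_lt with h | h
    · exact ⟨0, by rw [← h]; simp⟩
    · obtain ⟨θ, hθ⟩ := exists_lt_of_lt_ciSup (show SB u K n / 2 < SB u K n by linarith)
      exact ⟨θ, hθ.le⟩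
  obtain ⟨θ, hθ⟩ := h3
  obtain ⟨b, hb⟩ := hT.2.2 θ
  exact ⟨b, by rw [mw_congr u K n _ _ hb]; exact hθ⟩

end Pool.Agent.H14.LF
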